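import Mathlib

/-!
The finite support iteration of Hechler forcing along a well-order `I`, presented semantically:
a condition is a finite set of coordinates with stems and side functions, it determines a set of
points of `I → ℕ → ℕ`, and conditions are ordered by inclusion of these sets.
-/

set_option autoImplicit false
set_option linter.unusedSectionVars false

namespace Pool.Agent.Lib.MP_da5f1d_gt

open Set Classical

/-- Finite functions with countably many values: countable predense subfamilies. -/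
theorem ctbl_dense {ι I γ : Type*} [Countable γ] (c : ι → I → γ) (F : ι → Finset I) (D : Set ι) :
    ∃ D' ⊆ D, D'.Countable ∧ ∀ p ∈ D, ∃ p' ∈ D', ∀ a ∈ F p, a ∈ F p' → c p a = c p' a := by
  have key : ∀ (n : ℕ) (F : ι → Finset I) (D : Set ι), (∀ p ∈ D, (F p).card ≤ n) →
      ∃ D' ⊆ D, D'.Countable ∧ ∀ p ∈ D, ∃ p' ∈ D', ∀ a ∈ F p, a ∈ F p' → c p a = c p' a := by
    intro n
    induction n with
    | zero =>
      intro F D hD
      rcases D.eq_empty_or_nonempty with rfl | ⟨p0, h0⟩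
      · exact ⟨∅, subset_rfl, countable_empty, by simp⟩
      · refine ⟨{p0}, by simpa, countable_singleton _, fun p hp => ⟨p0, rfl, fun a ha => ?_⟩⟩
        have := Finset.card_eq_zero.1 (Nat.le_zero.1 (hD p hp))
        simp [this] at ha
    | succ n ih =>
      intro F D hD
      rcases D.eq_empty_or_nonempty with rfl | ⟨p0, h0⟩
      · exact ⟨∅, subset_rfl, countable_empty, by simp⟩
      have h1 := fun (a : I) (g : γ) => ih (fun p => (F p).erase a)
        {p | p ∈ D ∧ a ∈ F p ∧ c p a = g} fun p hp => by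
          have := hD p hp.1
          rw [Finset.card_erase_of_mem hp.2.1]
          omega
      choose E e1 e2 e3 using h1
      refine ⟨insert p0 (⋃ a ∈ (F p0 : Set I), ⋃ g, E a g), ?_, ?_, fun p hp => ?_⟩
      · exact insert_subset h0 (iUnion₂_subset fun a _ => iUnion_subset fun g p hp =>
          (e1 a g hp).1)
      · exact ((F p0).countable_toSet.biUnion fun a _ => countable_iUnion fun g => e2 a g).insert _
      · by_cases h : ∃ a ∈ F p, a ∈ F p0
        · obtain ⟨a, a1, a2⟩ := h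
          obtain ⟨p', b1, b2⟩ := e3 a (c p a) p ⟨hp, a1, rfl⟩
          refine ⟨p', Or.inr (mem_biUnion a2 (mem_iUnion.2 ⟨_, b1⟩)), fun b hb hb' => ?_⟩
          by_cases e : b = a
          · rw [e, (e1 a _ b1).2.2]
          · exact b2 b (Finset.mem_erase.2 ⟨e, hb⟩) (Finset.mem_erase.2 ⟨e, hb'⟩)
        · exact ⟨p0, Or.inl rfl, fun a a1 a2 => (h ⟨a, a1, a2⟩).elim⟩
  choose E e1 e2 e3 using fun n => key n F {p | p ∈ D ∧ (F p).card ≤ n} fun p hp => hp.2
  refine ⟨⋃ n, E n, iUnion_subset fun n p hp => (e1 n hp).1, countable_iUnion e2, fun p hp => ?_⟩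
  obtain ⟨p', h1, h2⟩ := e3 _ p ⟨hp, le_rfl⟩
  exact ⟨p', mem_iUnion.2 ⟨_, h1⟩, h2⟩

/-- Raw conditions. -/
structure Pre (I : Type) where
  F : Finset I
  n : I → ℕ
  v : I → ℕ → ℕ
  B : I → (I → ℕ → ℕ) → ℕ → ℕ

/-- `y` extends the stem `(n, v)` and dominates `b` beyond it. -/
def Ok (n : ℕ) (v b y : ℕ → ℕ) : Prop := ∀ k, (k < n → y k = v k) ∧ (n ≤ k → b k ≤ y k)

variable {I : Type} [LinearOrder I] [WellFoundedLT I]

/-- The set of points of a condition. -/
def Pre.set (p : Pre I) : Set (I → ℕ → ℕ) :=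
  {x | ∀ a ∈ p.F, Ok (p.n a) (p.v a) (p.B a x) (x a)}

/-- `f` depends only on the coordinates below `a`. -/
def Det (a : I) (f : (I → ℕ → ℕ) → ℕ → ℕ) : Prop :=
  ∀ x y, (∀ b < a, x b = y b) → f x = f y

/-- Admissible side functions. -/
noncomputable def Adm : I → ((I → ℕ → ℕ) → ℕ → ℕ) → Prop :=
  WellFoundedLT.fix fun a rec f => Det a f ∧ ∀ (k : ℕ) (t : Pre I),
    (∀ b ∈ t.F, ∃ h : b < a, rec b h (t.B b)) → ∃ u : Pre I,
      (∀ b ∈ u.F, ∃ h : b < a, rec b h (u.B b)) ∧ u.set ⊆ t.set ∧ ∃ m, ∀ x ∈ u.set, f x k = m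

/-- Conditions. -/
def HP (I : Type) [LinearOrder I] [WellFoundedLT I] : Type :=
  {p : Pre I // ∀ b ∈ p.F, Adm b (p.B b)}

namespace HP

instance : Preorder (HP I) := Preorder.lift fun p => p.1.set

theorem le_def {p q : HP I} : p ≤ q ↔ p.1.set ⊆ q.1.set := Iff.rfl

instance : OrderTop (HP I) where
  top := ⟨⟨∅, fun _ => 0, fun _ _ => 0, fun _ _ _ => 0⟩, by simp⟩
  le_top _ _ _ := by simp [Pre.set]

/-- The support lies below `a`. -/
def Below (a : I) (p : HP I) : Prop := ∀ b ∈ p.1.F, b < a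

theorem adm_iff {a : I} {f : (I → ℕ → ℕ) → ℕ → ℕ} : Adm a f ↔ Det a f ∧ ∀ (k : ℕ) (t : HP I),
    Below a t → ∃ u ≤ t, Below a u ∧ ∃ m, ∀ x ∈ u.1.set, f x k = m := by
  unfold Adm
  rw [WellFoundedLT.fix_eq]
  refine and_congr_right fun _ => forall_congr' fun k => ⟨fun h t ht => ?_, fun h t ht => ?_⟩
  · obtain ⟨u, u1, u2, u3⟩ := h t.1 fun b hb => ⟨ht b hb, t.2 b hb⟩
    exact ⟨⟨u, fun b hb => (u1 b hb).2⟩, u2, fun b hb => (u1 b hb).1, u3⟩
  · obtain ⟨u, u1, u2, u3⟩ := h ⟨t, fun b hb => (ht b hb).2⟩ fun b hb => (ht b hb).1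
    exact ⟨u.1, fun b hb => ⟨u2 b hb, u.2 b hb⟩, u1, u3⟩

theorem adm_zero (a : I) : Adm a fun _ _ => 0 :=
  adm_iff.2 ⟨fun _ _ _ => rfl, fun _ t ht => ⟨t, le_rfl, ht, 0, fun _ _ => rfl⟩⟩

theorem adm_max {a : I} {f g : (I → ℕ → ℕ) → ℕ → ℕ} (hf : Adm a f) (hg : Adm a g) :
    Adm a fun x k => max (f x k) (g x k) := by
  rw [adm_iff] at hf hg ⊢
  refine ⟨fun x y h => by simp only [hf.1 x y h, hg.1 x y h], fun k t ht => ?_⟩
  obtain ⟨u, u1, u2, m, u3⟩ := hf.2 k t ht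
  obtain ⟨w, w1, w2, m', w3⟩ := hg.2 k u u2
  exact ⟨w, w1.trans u1, w2, max m m', fun x hx => by rw [u3 x (w1 hx), w3 x hx]⟩

theorem decide_fin {a : I} {f : (I → ℕ → ℕ) → ℕ → ℕ} (hf : Adm a f) (N : ℕ) {t : HP I}
    (ht : Below a t) : ∃ u ≤ t, Below a u ∧ ∃ c : ℕ → ℕ, ∀ k < N, ∀ x ∈ u.1.set, f x k = c k := by
  induction N with
  | zero => exact ⟨t, le_rfl, ht, fun _ => 0, by simp⟩
  | succ N ih =>
    obtain ⟨u, u1, u2, c, u3⟩ := ih
    obtain ⟨w, w1, w2, m, w3⟩ := (adm_iff.1 hf).2 N u u2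
    refine ⟨w, w1.trans u1, w2, Function.update c N m, fun k hk x hx => ?_⟩
    rcases Nat.lt_succ_iff_lt_or_eq.1 hk with h | rfl
    · rw [Function.update_of_ne h.ne, u3 k h x (w1 hx)]
    · rw [Function.update_self, w3 x hx]

theorem extend (p : HP I) (L : Set I) (hL : IsLowerSet L) (x : I → ℕ → ℕ)
    (hx : ∀ a ∈ p.1.F, a ∈ L → Ok (p.1.n a) (p.1.v a) (p.1.B a x) (x a)) :
    ∃ y ∈ p.1.set, ∀ a ∈ L, y a = x a := by
  let y : I → ℕ → ℕ := WellFoundedLT.fix fun a rec => if a ∈ L then x a else fun k =>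
    if k < p.1.n a then p.1.v a k else p.1.B a (fun b => if h : b < a then rec b h else 0) k
  have hy : ∀ a, y a = if a ∈ L then x a else fun k =>
      if k < p.1.n a then p.1.v a k else p.1.B a (fun b => if b < a then y b else 0) k := by
    intro a
    simp only [y]
    rw [WellFoundedLT.fix_eq]
    rfl
  have h1 : ∀ a ∈ L, y a = x a := fun a ha => by rw [hy, if_pos ha]
  refine ⟨y, fun a ha => ?_, h1⟩
  have hd := (adm_iff.1 (p.2 a ha)).1
  by_cases h : a ∈ L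
  · rw [h1 a h, hd y x fun b hb => h1 b (hL hb.le h)]
    exact hx a ha h
  · rw [hy a, if_neg h, hd y (fun b => if b < a then y b else 0) fun b hb => by simp [hb]]
    intro k
    exact ⟨fun hk => by simp [hk], fun hk => by simp [not_lt.2 hk]⟩

theorem nonempty (p : HP I) : p.1.set.Nonempty := by
  obtain ⟨y, hy, -⟩ := extend p ∅ isLowerSet_empty (fun _ _ => 0) fun _ _ h => h.elim
  exact ⟨y, hy⟩

theorem Below.mem {a : I} {p : HP I} (hp : Below a p) {x y : I → ℕ → ℕ}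
    (h : ∀ b < a, x b = y b) (hx : x ∈ p.1.set) : y ∈ p.1.set := by
  intro b hb
  rw [← h b (hp b hb), ← (adm_iff.1 (p.2 b hb)).1 x y fun c hc => h c (hc.trans (hp b hb))]
  exact hx b hb

/-- Restriction below `a`. -/
def res (p : HP I) (a : I) : HP I :=
  ⟨{ p.1 with F := p.1.F.filter (· < a) }, fun b hb => p.2 b (Finset.mem_filter.1 hb).1⟩

theorem below_res (p : HP I) (a : I) : Below a (p.res a) := fun _ hb => (Finset.mem_filter.1 hb).2

theorem mem_res {p : HP I} {a : I} {x : I → ℕ → ℕ} : x ∈ (p.res a).1.set ↔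
    ∀ b ∈ p.1.F, b < a → Ok (p.1.n b) (p.1.v b) (p.1.B b x) (x b) := by
  simp [res, Pre.set]

theorem le_res (p : HP I) (a : I) : p ≤ p.res a := fun _ hx => mem_res.2 fun b hb _ => hx b hb

theorem res_le {r p : HP I} {a : I} (h : r ≤ p) (hp : Below a p) : r.res a ≤ p := by
  intro x hx
  obtain ⟨y, y1, y2⟩ := extend r (Iio a) (isLowerSet_Iio a) x (mem_res.1 hx)
  exact hp.mem y2 (h y1)

theorem res_disj {r p : HP I} {a : I} (h : Disjoint r.1.set p.1.set) (hp : Below a p) :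
    Disjoint (r.res a).1.set p.1.set := by
  refine disjoint_left.2 fun x hx hx' => ?_
  obtain ⟨y, y1, y2⟩ := extend r (Iio a) (isLowerSet_Iio a) x (mem_res.1 hx)
  exact disjoint_left.1 h y1 (hp.mem (fun b hb => (y2 b hb).symm) hx')

theorem exists_glue {u : HP I} {a : I} (hu : Below a u) (p : HP I) : ∃ r : HP I, ∀ x,
    x ∈ r.1.set ↔ x ∈ u.1.set ∧ ∀ b ∈ p.1.F, a ≤ b → Ok (p.1.n b) (p.1.v b) (p.1.B b x) (x b) := by
  refine ⟨⟨⟨u.1.F ∪ p.1.F.filter (a ≤ ·), fun b => if b < a then u.1.n b else p.1.n b,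
    fun b => if b < a then u.1.v b else p.1.v b, fun b => if b < a then u.1.B b else p.1.B b⟩,
    fun b hb => ?_⟩, fun x => ⟨fun h => ⟨fun b hb => ?_, fun b hb hab => ?_⟩, fun h b hb => ?_⟩⟩
  · rcases Finset.mem_union.1 hb with h | h
    · simpa [hu b h] using u.2 b h
    · simpa [not_lt.2 (Finset.mem_filter.1 h).2] using p.2 b (Finset.mem_filter.1 h).1
  · simpa [hu b hb] using h b (Finset.mem_union_left _ hb)
  · simpa [not_lt.2 hab] using h b (Finset.mem_union_right _ (Finset.mem_filter.2 ⟨hb, hab⟩))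
  · rcases Finset.mem_union.1 hb with h' | h'
    · simpa [hu b h'] using h.1 b h'
    · obtain ⟨h1, h2⟩ := Finset.mem_filter.1 h'
      simpa [not_lt.2 h2] using h.2 b h1 h2

theorem glue_le {u p : HP I} {a : I} (hu : Below a u) (h : u ≤ p.res a) : ∃ r ≤ u, r ≤ p := by
  obtain ⟨r, hr⟩ := exists_glue hu p
  refine ⟨r, fun x hx => ((hr x).1 hx).1, fun x hx b hb => ?_⟩
  rcases lt_or_ge b a with h1 | h1
  · exact mem_res.1 (h ((hr x).1 hx).1) b hb h1
  · exact ((hr x).1 hx).2 b hb h1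

theorem exists_upd (p : HP I) (a : I) (N : ℕ) (w : ℕ → ℕ) {f : (I → ℕ → ℕ) → ℕ → ℕ}
    (hf : Adm a f) : ∃ r : HP I, (∀ x, x ∈ r.1.set ↔ Ok N w (f x) (x a) ∧
      ∀ b ∈ p.1.F, b ≠ a → Ok (p.1.n b) (p.1.v b) (p.1.B b x) (x b)) ∧ p.res a ≤ r.res a := by
  refine ⟨⟨⟨insert a p.1.F, Function.update p.1.n a N, Function.update p.1.v a w,
    Function.update p.1.B a f⟩, fun b hb => ?_⟩,
    fun x => ⟨fun h => ⟨?_, fun b hb hab => ?_⟩, fun h b hb => ?_⟩,
    fun x hx => mem_res.2 fun b hb hab => ?_⟩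
  · by_cases e : b = a
    · simpa [e] using hf
    · simpa [e] using p.2 b ((Finset.mem_insert.1 hb).resolve_left e)
  · simpa using h a (Finset.mem_insert_self _ _)
  · simpa [hab] using h b (Finset.mem_insert_of_mem hb)
  · by_cases e : b = a
    · simpa [e] using h.1
    · simpa [e] using h.2 b ((Finset.mem_insert.1 hb).resolve_left e) e
  · simpa [hab.ne] using mem_res.1 hx b ((Finset.mem_insert.1 hb).resolve_left hab.ne) hab

/-- The stem length, zero off the support. -/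
noncomputable def n' (p : HP I) (a : I) : ℕ := if a ∈ p.1.F then p.1.n a else 0

/-- The side function, zero off the support. -/
noncomputable def B' (p : HP I) (a : I) : (I → ℕ → ℕ) → ℕ → ℕ :=
  if a ∈ p.1.F then p.1.B a else fun _ _ => 0

theorem adm_B' (p : HP I) (a : I) : Adm a (p.B' a) := by
  unfold B'
  split_ifs with h
  exacts [p.2 a h, adm_zero a]

theorem ok_iff {p : HP I} {a : I} {x : I → ℕ → ℕ} : Ok (p.n' a) (p.1.v a) (p.B' a x) (x a) ↔
    (a ∈ p.1.F → Ok (p.1.n a) (p.1.v a) (p.1.B a x) (x a)) := by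
  unfold n' B'
  by_cases h : a ∈ p.1.F
  · simp [h]
  · simp [h, Ok]

theorem sep_step {b : I} (ih : ∀ p q : HP I, Below b p → Below b q →
      (∃ r ≤ p, r ≤ q) ∨ ∃ r ≤ p, Disjoint r.1.set q.1.set)
    (p q : HP I) (hp : ∀ c ∈ p.1.F, c ≤ b) (hq : ∀ c ∈ q.1.F, c ≤ b) :
    (∃ r ≤ p, r ≤ q) ∨ ∃ r ≤ p, Disjoint r.1.set q.1.set := by
  rcases ih _ _ (below_res p b) (below_res q b) with ⟨r, r1, r2⟩ | ⟨r, r1, r2⟩
  · obtain ⟨u0, a1, a2, c, a3⟩ := decide_fin (adm_B' p b) (max (p.n' b) (q.n' b)) (below_res r b)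
    obtain ⟨u, b1, b2, d, b3⟩ := decide_fin (adm_B' q b) (max (p.n' b) (q.n' b)) a2
    have u1 : u ≤ p.res b := (b1.trans a1).trans (res_le r1 (below_res p b))
    have u2 : u ≤ q.res b := (b1.trans a1).trans (res_le r2 (below_res q b))
    by_cases h : ∀ k < max (p.n' b) (q.n' b), ∃ w, ((k < p.n' b → w = p.1.v b k) ∧
        (p.n' b ≤ k → c k ≤ w)) ∧ (k < q.n' b → w = q.1.v b k) ∧ (q.n' b ≤ k → d k ≤ w)
    · choose! w hw using h
      obtain ⟨s, hs, -⟩ := exists_upd u b (max (p.n' b) (q.n' b)) w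
        (adm_max (adm_B' p b) (adm_B' q b))
      have hu : s ≤ u := fun x hx c hc => ((hs x).1 hx).2 c hc (b2 c hc).ne
      refine Or.inl ⟨s, fun x hx e he => ?_, fun x hx e he => ?_⟩
      · rcases (hp e he).lt_or_eq with h | rfl
        · exact mem_res.1 (u1 (hu hx)) e he h
        · refine ok_iff.1 (fun k => ?_) he
          have h1 := ((hs x).1 hx).1 k
          by_cases hk : k < max (p.n' e) (q.n' e)
          · rw [h1.1 hk, a3 k hk x (b1 (hu hx))]
            exact (hw k hk).1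
          · have h2 := h1.2 (not_lt.1 hk)
            exact ⟨fun h => by omega, fun _ => (le_max_left _ _).trans h2⟩
      · rcases (hq e he).lt_or_eq with h | rfl
        · exact mem_res.1 (u2 (hu hx)) e he h
        · refine ok_iff.1 (fun k => ?_) he
          have h1 := ((hs x).1 hx).1 k
          by_cases hk : k < max (p.n' e) (q.n' e)
          · rw [h1.1 hk, b3 k hk x (hu hx)]
            exact (hw k hk).2
          · have h2 := h1.2 (not_lt.1 hk)
            exact ⟨fun h => by omega, fun _ => (le_max_right _ _).trans h2⟩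
    · obtain ⟨s, s1, s2⟩ := glue_le b2 u1
      refine Or.inr ⟨s, s2, disjoint_left.2 fun x hx hx' => h fun k hk => ⟨x b k, ?_, ?_⟩⟩
      · rw [← a3 k hk x (b1 (s1 hx))]
        exact ok_iff.2 (s2 hx b) k
      · rw [← b3 k hk x (s1 hx)]
        exact ok_iff.2 (hx' b) k
  · obtain ⟨s, s1, s2⟩ := glue_le (below_res r b) (res_le r1 (below_res p b))
    exact Or.inr ⟨s, s2, (res_disj r2 (below_res q b)).mono s1 (le_res q b)⟩

/-- Incompatible conditions can be separated. -/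
theorem sep (p q : HP I) : (∃ r ≤ p, r ≤ q) ∨ ∃ r ≤ p, Disjoint r.1.set q.1.set := by
  have key : ∀ p q : HP I, (∀ b ∈ p.1.F ∪ q.1.F, ∀ p q : HP I, Below b p → Below b q →
      (∃ r ≤ p, r ≤ q) ∨ ∃ r ≤ p, Disjoint r.1.set q.1.set) →
      (∃ r ≤ p, r ≤ q) ∨ ∃ r ≤ p, Disjoint r.1.set q.1.set := by
    intro p q h
    rcases (p.1.F ∪ q.1.F).eq_empty_or_nonempty with h0 | h0
    · exact Or.inl ⟨p, le_rfl, fun x _ b hb => by
        simp [(Finset.union_eq_empty.1 h0).2] at hb⟩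
    · exact sep_step (h _ (Finset.max'_mem _ h0)) p q
        (fun c hc => Finset.le_max' _ c (Finset.mem_union_left _ hc))
        fun c hc => Finset.le_max' _ c (Finset.mem_union_right _ hc)
  refine key p q fun b hb => ?_
  clear hb
  induction b using WellFoundedLT.induction with
  | ind b ih =>
    intro p q hp hq
    refine key p q fun c hc => ih c ?_
    rcases Finset.mem_union.1 hc with h | h
    exacts [hp c h, hq c h]

theorem join {p q : HP I} (h : ∀ a ∈ p.1.F, a ∈ q.1.F →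
    (List.range (p.1.n a)).map (p.1.v a) = (List.range (q.1.n a)).map (q.1.v a)) :
    ∃ r ≤ p, r ≤ q := by
  refine ⟨⟨⟨p.1.F ∪ q.1.F, fun a => if a ∈ p.1.F then p.1.n a else q.1.n a,
    fun a => if a ∈ p.1.F then p.1.v a else q.1.v a, fun a x k => max (p.B' a x k) (q.B' a x k)⟩,
    fun a _ => adm_max (adm_B' p a) (adm_B' q a)⟩, fun x hx a ha k => ?_, fun x hx a ha k => ?_⟩
  · have h1 := hx a (Finset.mem_union_left _ ha) k
    simp only [ha, if_true, B'] at h1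
    exact ⟨h1.1, fun hk => (le_max_left _ _).trans (h1.2 hk)⟩
  · have h1 := hx a (Finset.mem_union_right _ ha) k
    by_cases hp : a ∈ p.1.F
    · simp only [ha, hp, if_true, B'] at h1
      have h2 := h a hp ha
      have h3 : p.1.n a = q.1.n a := by simpa using congrArg List.length h2
      rw [h3] at h1 h2
      refine ⟨fun hk => ?_, fun hk => (le_max_right _ _).trans (h1.2 hk)⟩
      rw [h1.1 hk]
      exact List.map_inj_left.1 h2 k (List.mem_range.2 hk)
    · simp only [ha, hp, if_true, if_false, B'] at h1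
      exact ⟨h1.1, fun hk => (le_max_right _ _).trans (h1.2 hk)⟩

/-- The countable chain condition. -/
theorem ccc (D : Set (HP I)) : ∃ D' ⊆ D, D'.Countable ∧ ∀ p ∈ D, ∃ p' ∈ D', ∃ r ≤ p, r ≤ p' := by
  obtain ⟨D', h1, h2, h3⟩ := ctbl_dense
    (fun (p : HP I) a => (List.range (p.1.n a)).map (p.1.v a)) (fun p => p.1.F) D
  refine ⟨D', h1, h2, fun p hp => ?_⟩
  obtain ⟨p', a1, a2⟩ := h3 p hp
  exact ⟨p', a1, join a2⟩

/-- `p` forces that the generic function at `a` has value `n` at `k`. -/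
def Gv (a : I) (k n : ℕ) (p : HP I) : Prop := ∀ x ∈ p.1.set, x a k = n

theorem Gv.mono {a : I} {k n : ℕ} {p q : HP I} (h : Gv a k n p) (hq : q ≤ p) : Gv a k n q :=
  fun x hx => h x (hq hx)

theorem gv_dense (a : I) (k : ℕ) (p : HP I) : ∃ q ≤ p, ∃ n, Gv a k n q := by
  obtain ⟨u, u1, u2, c, u3⟩ := decide_fin (adm_B' p a) (k + 1) (below_res p a)
  obtain ⟨s, hs, h1⟩ := exists_upd p a (max (p.n' a) (k + 1))
    (fun j => if j < p.n' a then p.1.v a j else c j) (adm_B' p a)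
  obtain ⟨r, r1, r2⟩ := glue_le u2 (u1.trans h1)
  refine ⟨r, fun x hx b hb => ?_, _, fun x hx => (((hs x).1 (r2 hx)).1 k).1 (by omega)⟩
  by_cases e : b = a
  · subst e
    refine ok_iff.1 (fun j => ?_) hb
    have h2 := ((hs x).1 (r2 hx)).1 j
    refine ⟨fun hj => by simpa [hj] using h2.1 (by omega), fun hj => ?_⟩
    by_cases h3 : j < k + 1
    · rw [h2.1 (by omega), u3 j h3 x (r1 hx)]
      simp [not_lt.2 hj]
    · exact h2.2 (by omega)
  · exact ((hs x).1 (r2 hx)).2 b hb e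

theorem add_side {a : I} {f : (I → ℕ → ℕ) → ℕ → ℕ} (hf : Adm a f) (p : HP I) :
    ∃ q ≤ p, ∃ N, ∀ x ∈ q.1.set, ∀ k, N ≤ k → f x k ≤ x a k := by
  obtain ⟨s, hs, -⟩ := exists_upd p a (p.n' a) (p.1.v a) (adm_max (adm_B' p a) hf)
  refine ⟨s, fun x hx b hb => ?_, p.n' a, fun x hx k hk =>
    (le_max_right _ _).trans ((((hs x).1 hx).1 k).2 hk)⟩
  by_cases e : b = a
  · subst e
    refine ok_iff.1 (fun j => ?_) hb
    have h2 := ((hs x).1 hx).1 j
    exact ⟨h2.1, fun hj => (le_max_left _ _).trans (h2.2 hj)⟩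
  · exact ((hs x).1 hx).2 b hb e

/-- Late generic functions eventually dominate a given name for a function. -/
theorem dominate (hI : ∀ S : Set I, S.Countable → ∃ a, ∀ b ∈ S, b < a) (U : ℕ → ℕ → Set (HP I))
    (hU : ∀ k m, ∀ p ∈ U k m, ∀ q ≤ p, q ∈ U k m) : ∃ a0, ∀ a, a0 ≤ a → ∀ p : HP I, ∃ q ≤ p, ∃ N,
      ∀ k, N ≤ k → ∀ r ≤ q, ∀ n, Gv a k n r →
        ∃ s ≤ r, (∃ m ≤ n, s ∈ U k m) ∨ ∀ t ≤ s, ∀ m, t ∉ U k m := by
  have h1 : ∀ k, ∃ t : ℕ → HP I, ∃ m : ℕ → ℕ, (∀ j, t j ∈ U k (m j) ∨ ∀ s ≤ t j, ∀ m, s ∉ U k m) ∧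
      ∀ p, ∃ j, ∃ r ≤ p, r ≤ t j := by
    intro k
    obtain ⟨D, d1, d2, d3⟩ := ccc {p | ∃ m, p ∈ U k m ∨ ∀ s ≤ p, ∀ m, s ∉ U k m}
    have d4 : ∀ p, ∃ p' ∈ D, ∃ r ≤ p, r ≤ p' := by
      intro p
      obtain ⟨q, q1, q2⟩ : ∃ q ≤ p, ∃ m, q ∈ U k m ∨ ∀ s ≤ q, ∀ m, s ∉ U k m := by
        by_cases h : ∃ q ≤ p, ∃ m, q ∈ U k m
        · obtain ⟨q, h1, m, h2⟩ := h
          exact ⟨q, h1, m, Or.inl h2⟩
        · exact ⟨p, le_rfl, 0, Or.inr fun s hs m hm => h ⟨s, hs, m, hm⟩⟩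
      obtain ⟨p', a1, r, a2, a3⟩ := d3 q q2
      exact ⟨p', a1, r, a2.trans q1, a3⟩
    obtain ⟨t, rfl⟩ := d2.exists_eq_range ((d4 ⊤).imp fun _ h => h.1)
    choose m hm using fun j => d1 (mem_range_self j)
    refine ⟨t, m, hm, fun p => ?_⟩
    obtain ⟨_, ⟨j, rfl⟩, h⟩ := d4 p
    exact ⟨j, h⟩
  choose t m h1 h2 using h1
  obtain ⟨a0, h0⟩ := hI (⋃ k, ⋃ j, ((t k j).1.F : Set I))
    (countable_iUnion fun k => countable_iUnion fun j => Finset.countable_toSet _)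
  refine ⟨a0, fun a ha p => ?_⟩
  have hb : ∀ k j, Below a (t k j) := fun k j b hb =>
    (h0 b (mem_iUnion₂.2 ⟨k, j, hb⟩)).trans_le ha
  let f : (I → ℕ → ℕ) → ℕ → ℕ := fun x k =>
    if h : ∃ j, x ∈ (t k j).1.set then m k (Nat.find h) else 0
  have key : ∀ k (w : HP I), Below a w →
      ∃ u ≤ w, Below a u ∧ ∃ j, u ≤ t k j ∧ ∀ x ∈ u.1.set, f x k = m k j := by
    intro k w hw
    obtain ⟨r, r1, r2⟩ := Nat.find_spec (h2 k w)
    have h3 : ∀ i ≤ Nat.find (h2 k w), ∃ u ≤ r, ∀ j < i, Disjoint u.1.set (t k j).1.set := by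
      intro i
      induction i with
      | zero => exact fun _ => ⟨r, le_rfl, by simp⟩
      | succ i ih =>
        intro hi
        obtain ⟨u, u1, u2⟩ := ih (by omega)
        rcases sep u (t k i) with ⟨s, s1, s2⟩ | ⟨s, s1, s2⟩
        · exact (Nat.find_min (h2 k w) hi ⟨s, s1.trans (u1.trans r1), s2⟩).elim
        · refine ⟨s, s1.trans u1, fun j hj => ?_⟩
          rcases Nat.lt_succ_iff_lt_or_eq.1 hj with h | rfl
          exacts [(u2 j h).mono_left s1, s2]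
    obtain ⟨u, u1, u2⟩ := h3 _ le_rfl
    have u3 := res_le (u1.trans r2) (hb k _)
    refine ⟨u.res a, res_le (u1.trans r1) hw, below_res u a, _, u3, fun x hx => ?_⟩
    have h4 : ∃ j, x ∈ (t k j).1.set := ⟨_, u3 hx⟩
    simp only [f, dif_pos h4]
    rw [(Nat.find_eq_iff h4).2 ⟨u3 hx, fun j hj =>
      disjoint_left.1 (res_disj (u2 j hj) (hb k j)) hx⟩]
  have hf : Adm a f := by
    refine adm_iff.2 ⟨fun x y h => funext fun k => ?_, fun k w hw => ?_⟩
    · have : ∀ j, x ∈ (t k j).1.set ↔ y ∈ (t k j).1.set := fun j =>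
        ⟨(hb k j).mem h, (hb k j).mem fun b hb => (h b hb).symm⟩
      simp only [f, this]
    · obtain ⟨u, u1, u2, j, -, u3⟩ := key k w hw
      exact ⟨u, u1, u2, _, u3⟩
  obtain ⟨q, q1, N, q2⟩ := add_side hf p
  refine ⟨q, q1, N, fun k hk r hr n hn => ?_⟩
  obtain ⟨u, u1, u2, j, u3, u4⟩ := key k _ (below_res r a)
  obtain ⟨s, s1, s2⟩ := glue_le u2 u1
  obtain ⟨x, hx⟩ := nonempty s
  refine ⟨s, s2, (h1 k j).imp (fun h => ⟨m k j, ?_, hU _ _ _ h _ (s1.trans u3)⟩)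
    fun h t' ht' => h t' (ht'.trans (s1.trans u3))⟩
  rw [← u4 x (s1 hx), ← hn x (s2 hx)]
  exact q2 x (hr (s2 hx)) k hk

end HP

end Pool.Agent.Lib.MP_da5f1d_gt
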