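import Pool.Agent.Lib.MP_da5f1d_gt.Generic

set_option autoImplicit false

namespace Pool.Agent.Lib.MP_da5f1d_gt

open Set Topology TopologicalSpace

lemma exists_ub {I : Type} [LinearOrder I] [Uncountable I] (hI : ∀ i : I, (Iic i).Countable)
    {A : Set I} (hA : A.Countable) : ∃ η, ∀ a ∈ A, a ≤ η := by
  have h1 : (⋃ a ∈ A, Iic a).Countable := hA.biUnion fun a _ => hI a
  have h2 : (⋃ a ∈ A, Iic a) ≠ univ := fun h => not_countable_univ (h ▸ h1)
  obtain ⟨η, hη⟩ := (ne_univ_iff_exists_notMem _).mp h2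
  refine ⟨η, fun a ha => ?_⟩
  by_contra h
  exact hη (mem_biUnion ha (not_le.mp h).le)

theorem counter_of_enum {I : Type} [LinearOrder I] [Uncountable I]
    (hI : ∀ i : I, (Iic i).Countable) (e : I → ℕ → ℝ) (he : Function.Surjective e) :
    ∃ X : Set ℝ,
      (∀ Y : Set ℝ, Y ⊆ X →
        ∃ C : Set ℝ, C ⊆ Y ∧ C.Countable ∧
          ∀ U : Set ℝ, IsOpen U → C ⊆ U → (Y \ U).Countable) ∧
      ¬ ∃ Z : Set ℝ,
        (∀ Y : Set Z, IsNowhereDense Y → Y.Countable) ∧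
        ∃ f : ℝ → ℝ, ContinuousOn f Z ∧ f '' Z = X := by
  classical
  -- the generic closed sets
  have hK : ∀ ζ : I, ∃ K : Set ℝ, IsClosed K ∧ K.Nonempty ∧ interior K = ∅ ∧
      (∀ ξ ≤ ζ, ∀ V : Set ℝ, IsOpen V → V ⊆ closure (range (e ξ)) → (V ∩ K).Nonempty →
        (V ∩ K ∩ range (e ξ)).Nonempty) ∧
      (∀ ξ ≤ ζ, interior (closure (range (e ξ))) = ∅ → ND K (closure (range (e ξ)))) ∧
      (∀ p : ℝ, ND K {p}) := by
    intro ζ
    obtain ⟨K, k1, k2, k3, k4⟩ := exists_generic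
      ((fun ξ => range (e ξ)) '' Iic ζ ∪ (fun ξ => (closure (range (e ξ)))ᶜ) '' Iic ζ ∪
        {range ((↑) : ℚ → ℝ), {x | Irrational x}})
      ((((hI ζ).image _).union ((hI ζ).image _)).union (Set.toFinite _).countable)
    refine ⟨K, k1, k2, k3, fun ξ hξ => k4 _ (Or.inl (Or.inl ⟨ξ, hξ, rfl⟩)), fun ξ hξ h V hV hne => ?_,
      fun p V hV hne => ?_⟩
    · have hd : Dense (closure (range (e ξ)))ᶜ := interior_eq_empty_iff_dense_compl.mp h
      exact k4 _ (Or.inl (Or.inr ⟨ξ, hξ, rfl⟩)) V hV (by rw [hd.closure_eq]; exact subset_univ _) hne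
    · obtain ⟨a, ha1, ha2⟩ := k4 (range ((↑) : ℚ → ℝ)) (Or.inr (Or.inl rfl)) V hV
        (by rw [Rat.denseRange_cast.closure_eq]; exact subset_univ _) hne
      obtain ⟨b, hb1, hb2⟩ := k4 {x | Irrational x} (Or.inr (Or.inr rfl)) V hV
        (by rw [dense_irrational.closure_eq]; exact subset_univ _) hne
      by_cases h : a = p
      · refine ⟨b, hb1, fun hb => hb2 ?_⟩
        rw [mem_singleton_iff.mp hb, ← h]; exact ha2
      · exact ⟨a, ha1, h⟩
  choose K k1 k2 k3 k4 k5 k6 using hK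
  -- the points
  have hx : ∀ ζ α : I, ∃ x ∈ K ζ, ∀ ξ, (ξ ≤ ζ ∨ ξ ≤ α) → ND (K ζ) (closure (range (e ξ))) →
      x ∉ closure (range (e ξ)) := by
    intro ζ α
    obtain ⟨x, h1, h2⟩ := exists_avoid (k1 ζ) (k2 ζ)
      ((fun ξ => closure (range (e ξ))) ''
        {ξ | ξ ≤ max ζ α ∧ ND (K ζ) (closure (range (e ξ)))})
      (((hI (max ζ α)).mono fun ξ hξ => hξ.1).image _)
      (by rintro C ⟨ξ, _, rfl⟩; exact isClosed_closure)
      (by rintro C ⟨ξ, hξ, rfl⟩; exact hξ.2)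
    exact ⟨x, h1, fun ξ hξ h => h2 _ ⟨ξ, ⟨le_max_iff.mpr hξ, h⟩, rfl⟩⟩
  choose x x1 x2 using hx
  have i0 : I := Classical.arbitrary I
  have closed_idx : ∀ C : Set ℝ, IsClosed C → ∃ ξ : I,
      (∀ ζ, ξ ≤ ζ → interior C = ∅ → ND (K ζ) C) ∧
      (∀ ζ α, (ξ ≤ ζ ∨ ξ ≤ α) → ND (K ζ) C → x ζ α ∉ C) := by
    intro C hC
    rcases C.eq_empty_or_nonempty with rfl | hne
    · exact ⟨i0, fun ζ _ _ V _ h => by simpa using h, fun _ _ _ _ => notMem_empty _⟩
    · obtain ⟨D, d1, d2, d3⟩ := exists_dense_sub C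
      have hDne : D.Nonempty := closure_nonempty_iff.mp (hne.mono d3)
      obtain ⟨f, rfl⟩ := d2.exists_eq_range hDne
      obtain ⟨ξ, rfl⟩ := he f
      have hCe : closure (range (e ξ)) = C := subset_antisymm (closure_minimal d1 hC) d3
      rw [← hCe]
      exact ⟨ξ, fun ζ hζ h => k5 ζ ξ hζ h, fun ζ α h1 h2 => x2 ζ α ξ h1 h2⟩
  have luzin : ∀ (ζ : I) (C : Set ℝ), IsClosed C → ND (K ζ) C → (range (x ζ) ∩ C).Countable := by
    intro ζ C hC hnd
    obtain ⟨ξ, _, h2⟩ := closed_idx C hC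
    refine ((hI ξ).image (x ζ)).mono ?_
    rintro _ ⟨⟨α, rfl⟩, hα⟩
    refine ⟨α, ?_, rfl⟩
    by_contra h
    exact h2 ζ α (Or.inr (not_le.mp h).le) hnd hα
  have unc : ∀ ζ : I, ¬ (range (x ζ)).Countable := by
    intro ζ hc
    choose ξ _ h2 using fun p : ℝ => closed_idx {p} isClosed_singleton
    obtain ⟨η, hη⟩ := exists_ub hI (hc.image ξ)
    exact h2 (x ζ η) ζ η (Or.inr (hη _ ⟨_, ⟨η, rfl⟩, rfl⟩)) (k6 ζ _) rfl
  refine ⟨⋃ ζ, range (x ζ), fun Y hY => ?_, ?_⟩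
  · rcases Y.eq_empty_or_nonempty with rfl | hne
    · exact ⟨∅, subset_rfl, countable_empty, fun U _ _ => by simp⟩
    obtain ⟨D0, d1, d2, d3⟩ := exists_dense_sub Y
    have hDne : D0.Nonempty := closure_nonempty_iff.mp (hne.mono d3)
    obtain ⟨f, rfl⟩ := d2.exists_eq_range hDne
    obtain ⟨ξ0, rfl⟩ := he f
    have hcl : closure Y = closure (range (e ξ0)) :=
      subset_antisymm (closure_minimal d3 isClosed_closure) (closure_mono d1)
    obtain ⟨ξ1, b1, _⟩ := closed_idx (frontier (closure Y)) isClosed_frontier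
    choose D' e1 e2 e3 using fun ζ => exists_dense_sub (Y ∩ range (x ζ))
    refine ⟨range (e ξ0) ∪ ⋃ ζ ∈ Iic (max ξ0 ξ1), D' ζ, ?_, ?_, fun U hU hsub => ?_⟩
    · exact union_subset d1 (iUnion₂_subset fun ζ _ => (e1 ζ).trans inter_subset_left)
    · exact d2.union ((hI _).biUnion fun ζ _ => e2 ζ)
    have hC : IsClosed (closure Y ∩ Uᶜ) := isClosed_closure.inter hU.isClosed_compl
    have hint : interior (closure Y ∩ Uᶜ) = ∅ := by
      rw [eq_empty_iff_forall_notMem]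
      intro y hy
      have h1 : y ∈ closure (range (e ξ0)) := hcl ▸ (interior_subset hy).1
      obtain ⟨d, h2, h3⟩ := mem_closure_iff.mp h1 _ isOpen_interior hy
      exact (interior_subset h2).2 (hsub (Or.inl h3))
    obtain ⟨ξ2, c1, c2⟩ := closed_idx _ hC
    have hall : ∀ ζ, (Y ∩ range (x ζ) ∩ Uᶜ).Countable := by
      intro ζ
      rcases le_total ζ (max ξ0 ξ1) with hζ | hζ
      · have h1 : ND (K ζ) (closure (Y ∩ range (x ζ)) ∩ Uᶜ) := by
          rintro V hV ⟨y, hy⟩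
          by_cases h2 : y ∈ closure (Y ∩ range (x ζ))
          · have h3 : y ∈ closure (D' ζ) := closure_minimal (e3 ζ) isClosed_closure h2
            obtain ⟨d, h4, h5⟩ := mem_closure_iff.mp h3 V hV hy.1
            obtain ⟨α, hα⟩ := (e1 ζ h5).2
            exact ⟨d, ⟨h4, hα ▸ x1 ζ α⟩, fun h => h.2 (hsub (Or.inr (mem_biUnion hζ h5)))⟩
          · exact ⟨y, hy, fun h => h2 h.1⟩
        refine (luzin ζ _ (isClosed_closure.inter hU.isClosed_compl) h1).mono ?_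
        exact fun y hy => ⟨hy.1.2, subset_closure hy.1, hy.2⟩
      · have h1 : ND (K ζ) (closure Y ∩ Uᶜ) := by
          intro V hV hne'
          by_cases h2 : (V ∩ interior (closure Y) ∩ K ζ).Nonempty
          · obtain ⟨d, ⟨⟨h3, _⟩, h4⟩, h5⟩ := k4 ζ ξ0 ((le_max_left _ _).trans hζ) _
              (hV.inter isOpen_interior)
              (by rw [← hcl]; exact inter_subset_right.trans interior_subset) h2
            exact ⟨d, ⟨h3, h4⟩, fun h => h.2 (hsub (Or.inl h5))⟩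
          · obtain ⟨y, h3, h4⟩ := b1 ζ ((le_max_right _ _).trans hζ)
              (interior_frontier isClosed_closure) V hV hne'
            refine ⟨y, h3, fun h => h4 ?_⟩
            rw [isClosed_closure.frontier_eq]
            exact ⟨h.1, fun h5 => h2 ⟨y, ⟨h3.1, h5⟩, h3.2⟩⟩
        refine (luzin ζ _ hC h1).mono ?_
        exact fun y hy => ⟨hy.1.2, subset_closure hy.1.1, hy.2⟩
    refine ((hI ξ2).biUnion fun ζ _ => hall ζ).mono ?_
    rintro y ⟨hy1, hy2⟩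
    obtain ⟨ζ, α, rfl⟩ := mem_iUnion.mp (hY hy1)
    refine mem_biUnion (show ζ ∈ Iic ξ2 from ?_) ⟨⟨hy1, α, rfl⟩, hy2⟩
    by_contra h
    have h' := (not_le.mp h).le
    exact c2 ζ α (Or.inl h') (c1 ζ h' hint) ⟨subset_closure hy1, hy2⟩
  · rintro ⟨Z, hZ, f, hf, hfZ⟩
    have hg : Continuous (Z.domRestrict f) := hf.domRestrict
    have hF : ∀ ζ, IsClosed (Z.domRestrict f ⁻¹' K ζ) := fun ζ => (k1 ζ).preimage hg
    obtain ⟨T, hT, hTU⟩ := isOpen_iUnion_countable (fun ζ => interior (Z.domRestrict f ⁻¹' K ζ))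
      fun ζ => isOpen_interior
    choose ξ c1 c2 using fun ζ => closed_idx (K ζ) (k1 ζ)
    obtain ⟨η, hη⟩ := exists_ub hI (hT.image ξ)
    have hN : (frontier (Z.domRestrict f ⁻¹' K η)).Countable :=
      hZ _ (isClosed_frontier.isNowhereDense_iff.mpr (interior_frontier (hF η)))
    refine unc η ((hN.image (Z.domRestrict f)).mono ?_)
    rintro _ ⟨α, rfl⟩
    have h1 : x η α ∈ f '' Z := hfZ ▸ mem_iUnion.mpr ⟨η, α, rfl⟩
    obtain ⟨z, hz, hzx⟩ := h1
    refine ⟨⟨z, hz⟩, ?_, hzx⟩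
    rw [(hF η).frontier_eq]
    refine ⟨?_, fun h => ?_⟩
    · show f z ∈ K η
      rw [hzx]; exact x1 η α
    · have h2 : (⟨z, hz⟩ : Z) ∈ ⋃ ζ ∈ T, interior (Z.domRestrict f ⁻¹' K ζ) :=
        hTU ▸ mem_iUnion.mpr ⟨η, h⟩
      obtain ⟨ζ, hζ, h3⟩ := mem_iUnion₂.mp h2
      have h4 : f z ∈ K ζ := (interior_subset h3 : _ ∈ Z.domRestrict f ⁻¹' K ζ)
      have h5 := hη _ ⟨ζ, hζ, rfl⟩
      exact c2 ζ η α (Or.inl h5) (c1 ζ η h5 (k3 ζ)) (hzx ▸ h4)

theorem counter_of_CH (hCH : Cardinal.mk ℝ = Cardinal.aleph 1) :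
    ∃ X : Set ℝ,
      (∀ Y : Set ℝ, Y ⊆ X →
        ∃ C : Set ℝ, C ⊆ Y ∧ C.Countable ∧
          ∀ U : Set ℝ, IsOpen U → C ⊆ U → (Y \ U).Countable) ∧
      ¬ ∃ Z : Set ℝ,
        (∀ Y : Set Z, IsNowhereDense Y → Y.Countable) ∧
        ∃ f : ℝ → ℝ, ContinuousOn f Z ∧ f '' Z = X := by
  let I := (Cardinal.aleph.{0} 1).ord.ToType
  have hI : Cardinal.mk I = Cardinal.aleph 1 := Cardinal.mk_ord_toType _
  have : Uncountable I := by
    rw [← Cardinal.aleph0_lt_mk_iff, hI]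
    exact Cardinal.aleph0_lt_aleph_one
  have h1 : ∀ i : I, (Iic i).Countable := by
    intro i
    rw [← Iio_insert]
    have h3 := Cardinal.mk_Iio_lt i (by simp [I])
    rw [hI, Cardinal.lt_aleph_one_iff, Cardinal.le_aleph0_iff_set_countable] at h3
    exact h3.insert _
  have h2 : Cardinal.mk I = Cardinal.mk (ℕ → ℝ) := by
    rw [hI, ← hCH]; simp [Cardinal.mk_real]
  obtain ⟨e⟩ := Cardinal.eq.mp h2
  exact counter_of_enum h1 e e.surjective

/-- Rothberger: if every family of `ℵ₁` functions is eventually dominated, then every set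
concentrated on a countable set is countable. -/
theorem countable_of_bounded
    (hb : ∀ F : Set (ℕ → ℕ), Cardinal.mk F ≤ Cardinal.aleph 1 →
      ∃ g : ℕ → ℕ, ∀ f ∈ F, ∀ᶠ n in Filter.atTop, f n ≤ g n)
    (X C : Set ℝ) (hC : C.Countable)
    (h : ∀ U : Set ℝ, IsOpen U → C ⊆ U → (X \ U).Countable) : X.Countable := by
  classical
  rcases C.eq_empty_or_nonempty with rfl | hne
  · simpa using h ∅ isOpen_empty subset_rfl
  obtain ⟨c, rfl⟩ := hC.exists_eq_range hne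
  by_contra hX
  have h1 : ¬ (X \ range c).Countable := fun h2 =>
    hX ((h2.union hC).mono fun y hy => by by_cases h3 : y ∈ range c <;> simp [hy, h3])
  have h2 : Cardinal.aleph 1 ≤ Cardinal.mk (X \ range c : Set ℝ) := by
    rw [← not_lt, Cardinal.lt_aleph_one_iff, Cardinal.le_aleph0_iff_set_countable]
    exact h1
  obtain ⟨Y, hY1, hY2⟩ := Cardinal.le_mk_iff_exists_subset.mp h2
  have h3 : ∀ y ∈ Y, ∀ n, ∃ m : ℕ, 1 / ((m : ℝ) + 1) < dist y (c n) := by
    intro y hy n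
    exact exists_nat_one_div_lt (dist_pos.mpr fun h => (hY1 hy).2 ⟨n, h.symm⟩)
  choose! φ hφ using h3
  obtain ⟨g, hg⟩ := hb (φ '' Y) (Cardinal.mk_image_le.trans hY2.le)
  have h4 : ∀ k : ℕ, (X \ ⋃ n, Metric.ball (c n) (1 / (((g n + k : ℕ) : ℝ) + 1))).Countable :=
    fun k => h _ (isOpen_iUnion fun n => Metric.isOpen_ball)
      (by rintro _ ⟨n, rfl⟩; exact mem_iUnion.mpr ⟨n, Metric.mem_ball_self (by positivity)⟩)
  have h5 : Y.Countable := by
    refine (countable_iUnion h4).mono fun y hy => ?_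
    obtain ⟨N, hN⟩ := Filter.eventually_atTop.mp (hg _ ⟨y, hy, rfl⟩)
    refine mem_iUnion.mpr ⟨∑ n ∈ Finset.range N, φ y n, (hY1 hy).1, fun hh => ?_⟩
    obtain ⟨n, hn⟩ := mem_iUnion.mp hh
    have h6 : φ y n ≤ g n + ∑ n ∈ Finset.range N, φ y n := by
      rcases lt_or_ge n N with h7 | h7
      · have := Finset.single_le_sum (f := φ y) (fun i _ => Nat.zero_le _)
          (Finset.mem_range.mpr h7)
        omega
      · have := hN n h7
        omega
    have h7 := hφ y hy n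
    rw [Metric.mem_ball] at hn
    have h8 : 1 / (((g n + ∑ n ∈ Finset.range N, φ y n : ℕ) : ℝ) + 1) ≤ 1 / ((φ y n : ℝ) + 1) := by
      apply one_div_le_one_div_of_le (by positivity)
      have : ((φ y n : ℕ) : ℝ) ≤ ((g n + ∑ n ∈ Finset.range N, φ y n : ℕ) : ℝ) := by
        exact_mod_cast h6
      linarith
    linarith
  rw [← Cardinal.le_aleph0_iff_set_countable, hY2] at h5
  exact absurd h5 (not_le.mpr Cardinal.aleph0_lt_aleph_one)

end Pool.Agent.Lib.MP_da5f1d_gt
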