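import Mathlib

set_option autoImplicit false

namespace Pool.Agent.Lib.MP_da5f1d_gt

open Set Topology TopologicalSpace

/-- `C` is nowhere dense relative to `K` (for closed `C`). -/
def ND (K C : Set ℝ) : Prop := ∀ V : Set ℝ, IsOpen V → (V ∩ K).Nonempty → ((V ∩ K) \ C).Nonempty

lemma exists_dense_sub (Y : Set ℝ) : ∃ D, D ⊆ Y ∧ D.Countable ∧ Y ⊆ closure D :=
  (IsSeparable.of_separableSpace Y).exists_countable_dense_subset

lemma step_lemma (F : Finset ℝ) (W : Set ℝ) (hW : IsOpen W) (hFW : ∀ x ∈ F, x ∉ closure W)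
    (V D : Set ℝ) (hV : IsOpen V) :
    ∃ (F' : Finset ℝ) (W' : Set ℝ), IsOpen W' ∧ (∀ x ∈ F', x ∉ closure W') ∧ F ⊆ F' ∧ W ⊆ W' ∧
      (V ⊆ closure D → V ⊆ W' ∨ ∃ x ∈ F', x ∈ V ∧ x ∈ D) ∧ (V.Nonempty → (V ∩ W').Nonempty) := by
  classical
  have h1 : ∃ (F' : Finset ℝ) (W' : Set ℝ), IsOpen W' ∧ (∀ x ∈ F', x ∉ closure W') ∧ F ⊆ F' ∧
      W ⊆ W' ∧ (V ⊆ closure D → V ⊆ W' ∨ ∃ x ∈ F', x ∈ V ∧ x ∈ D) := by
    by_cases hD : V ⊆ closure D
    · by_cases hc : V ⊆ closure W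
      · refine ⟨F, W ∪ V, hW.union hV, fun x hx h => hFW x hx ?_, subset_rfl, subset_union_left,
          fun _ => Or.inl subset_union_right⟩
        rw [closure_union] at h
        rcases h with h | h
        · exact h
        · exact closure_minimal hc isClosed_closure h
      · obtain ⟨y, hyV, hyW⟩ := not_subset.mp hc
        have ho : IsOpen (V \ closure W) := hV.sdiff isClosed_closure
        obtain ⟨d, hd1, hd2⟩ := mem_closure_iff.mp (hD hyV) _ ho ⟨hyV, hyW⟩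
        refine ⟨insert d F, W, hW, fun x hx => ?_, Finset.subset_insert _ _, subset_rfl,
          fun _ => Or.inr ⟨d, Finset.mem_insert_self _ _, hd1.1, hd2⟩⟩
        rcases Finset.mem_insert.mp hx with rfl | hx
        · exact hd1.2
        · exact hFW x hx
    · exact ⟨F, W, hW, hFW, subset_rfl, subset_rfl, fun h => absurd h hD⟩
  obtain ⟨F', W', a1, a2, a3, a4, a5⟩ := h1
  by_cases hne : V.Nonempty
  · have ho : IsOpen (V \ (F' : Set ℝ)) := hV.sdiff F'.finite_toSet.isClosed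
    have hne' : (V \ (F' : Set ℝ)).Nonempty :=
      (infinite_of_mem_nhds hne.some (hV.mem_nhds hne.some_mem)).sdiff F'.finite_toSet |>.nonempty
    obtain ⟨y, hy⟩ := hne'
    obtain ⟨T, hT1, hT2, hT3⟩ := exists_mem_nhds_isClosed_subset (ho.mem_nhds hy)
    refine ⟨F', W' ∪ interior T, a1.union isOpen_interior, fun x hx h => ?_, a3,
      a4.trans subset_union_left, fun h => ?_, fun _ => ⟨y, hy.1, Or.inr ?_⟩⟩
    · rw [closure_union] at h
      rcases h with h | h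
      · exact a2 x hx h
      · exact (hT3 (closure_minimal interior_subset hT2 h)).2 hx
    · rcases a5 h with h | h
      · exact Or.inl (h.trans subset_union_left)
      · exact Or.inr h
    · exact mem_interior_iff_mem_nhds.mpr hT1
  · exact ⟨F', W', a1, a2, a3, a4, a5, fun h => absurd h hne⟩

/-- A closed nowhere dense set that is generic for countably many sets. -/
lemma exists_generic (𝒟 : Set (Set ℝ)) (h𝒟 : 𝒟.Countable) :
    ∃ K : Set ℝ, IsClosed K ∧ K.Nonempty ∧ interior K = ∅ ∧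
      ∀ D ∈ 𝒟, ∀ V : Set ℝ, IsOpen V → V ⊆ closure D → (V ∩ K).Nonempty →
        (V ∩ K ∩ D).Nonempty := by
  classical
  have hc : ((insert univ 𝒟) ×ˢ countableBasis ℝ).Countable :=
    (h𝒟.insert _).prod (countable_countableBasis ℝ)
  have hne : ((insert univ 𝒟) ×ˢ countableBasis ℝ).Nonempty := by
    obtain ⟨V, hV, _⟩ := (isBasis_countableBasis ℝ).exists_subset_of_mem_open (mem_univ (0 : ℝ))
      isOpen_univ
    exact ⟨(univ, V), mem_insert _ _, hV⟩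
  obtain ⟨t, ht⟩ := hc.exists_eq_range hne
  have htV : ∀ n, IsOpen (t n).2 := fun n => by
    have : t n ∈ (insert univ 𝒟) ×ˢ countableBasis ℝ := ht ▸ mem_range_self n
    exact isOpen_of_mem_countableBasis this.2
  let St := {p : Finset ℝ × Set ℝ // IsOpen p.2 ∧ ∀ x ∈ p.1, x ∉ closure p.2}
  have hs : ∀ (n : ℕ) (p : St), ∃ q : St, p.1.1 ⊆ q.1.1 ∧ p.1.2 ⊆ q.1.2 ∧
      ((t n).2 ⊆ closure (t n).1 → (t n).2 ⊆ q.1.2 ∨ ∃ x ∈ q.1.1, x ∈ (t n).2 ∧ x ∈ (t n).1) ∧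
      ((t n).2.Nonempty → ((t n).2 ∩ q.1.2).Nonempty) := by
    intro n p
    obtain ⟨F', W', a1, a2, a3, a4, a5, a6⟩ :=
      step_lemma p.1.1 p.1.2 p.2.1 p.2.2 (t n).2 (t n).1 (htV n)
    exact ⟨⟨(F', W'), a1, a2⟩, a3, a4, a5, a6⟩
  choose nx hnx using hs
  let s : ℕ → St := fun n => Nat.rec ⟨({0}, ∅), isOpen_empty, by simp⟩ nx n
  have hs : ∀ n, s (n + 1) = nx n (s n) := fun n => rfl
  have hF : Monotone fun n => (s n).1.1 :=
    monotone_nat_of_le_succ fun n => by rw [hs]; exact (hnx n (s n)).1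
  have hW : Monotone fun n => (s n).1.2 :=
    monotone_nat_of_le_succ fun n => by rw [hs]; exact (hnx n (s n)).2.1
  have hFK : ∀ n, ∀ x ∈ (s n).1.1, x ∈ (⋃ n, (s n).1.2)ᶜ := by
    intro n x hx h
    obtain ⟨m, hm⟩ := mem_iUnion.mp h
    exact (s (max n m)).2.2 x (hF (le_max_left n m) hx)
      (subset_closure (hW (le_max_right n m) hm))
  refine ⟨(⋃ n, (s n).1.2)ᶜ, (isOpen_iUnion fun n => (s n).2.1).isClosed_compl,
    ⟨0, hFK 0 0 (by simp [s])⟩, ?_, ?_⟩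
  · rw [eq_empty_iff_forall_notMem]
    intro x hx
    obtain ⟨V, hV, hxV, hsub⟩ :=
      (isBasis_countableBasis ℝ).exists_subset_of_mem_open hx isOpen_interior
    have : ((univ : Set ℝ), V) ∈ range t := ht ▸ ⟨mem_insert _ _, hV⟩
    obtain ⟨n, hn⟩ := this
    obtain ⟨y, hy1, hy2⟩ := (hnx n (s n)).2.2.2 (by rw [hn]; exact ⟨x, hxV⟩)
    rw [hn] at hy1
    exact interior_subset (hsub hy1) (mem_iUnion.mpr ⟨n + 1, hy2⟩)
  · rintro D hD V hV hVD ⟨x, hxV, hxK⟩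
    obtain ⟨V0, hV0, hxV0, hsub⟩ := (isBasis_countableBasis ℝ).exists_subset_of_mem_open hxV hV
    have : (D, V0) ∈ range t := ht ▸ ⟨mem_insert_of_mem _ hD, hV0⟩
    obtain ⟨n, hn⟩ := this
    rcases (hnx n (s n)).2.2.1 (by rw [hn]; exact hsub.trans hVD) with h | ⟨y, h1, h2, h3⟩
    · rw [hn] at h
      exact absurd (mem_iUnion.mpr ⟨n + 1, h hxV0⟩) hxK
    · rw [hn] at h2 h3
      exact ⟨y, ⟨hsub h2, hFK (n + 1) y h1⟩, h3⟩

/-- Baire category inside a closed set. -/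
lemma exists_avoid {K : Set ℝ} (hK : IsClosed K) (hne : K.Nonempty) (𝒞 : Set (Set ℝ))
    (h𝒞 : 𝒞.Countable) (hcl : ∀ C ∈ 𝒞, IsClosed C) (hnd : ∀ C ∈ 𝒞, ND K C) :
    ∃ x ∈ K, ∀ C ∈ 𝒞, x ∉ C := by
  have : CompleteSpace K := hK.completeSpace_coe
  have : Nonempty K := hne.to_subtype
  have hd : Dense (⋂ C ∈ 𝒞, ((↑) : K → ℝ) ⁻¹' Cᶜ) := by
    refine dense_biInter_of_isOpen
      (fun C hC => (hcl C hC).isOpen_compl.preimage continuous_subtype_val) h𝒞 fun C hC => ?_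
    rw [dense_iff_inter_open]
    rintro U hU ⟨y, hy⟩
    obtain ⟨V, hV, rfl⟩ := isOpen_induced_iff.mp hU
    obtain ⟨z, ⟨hz1, hz2⟩, hz3⟩ := hnd C hC V hV ⟨y, hy, y.2⟩
    exact ⟨⟨z, hz2⟩, hz1, hz3⟩
  obtain ⟨x, hx⟩ := hd.nonempty
  refine ⟨x, x.2, fun C hC => ?_⟩
  exact (mem_iInter₂.mp hx) C hC

end Pool.Agent.Lib.MP_da5f1d_gt
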