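import Mathlib
import Pool.Agent.Lib.MP_053343_lc.Defs

/-!
The Brown-Cox statement relativised to a transitive model `M`.  Real numbers are lower Dedekind
cuts, so the reals of `M` are the `r` with `cut r ∈ M`.
-/

set_option autoImplicit false

namespace Pool.Agent.Lib.MP_da5f1d_gt

open Pool.Agent.Lib.MP_053343_lc

/-- The axiom of choice in `M`: every set in `M` has a choice function in `M`. -/
def AC (M : ZFSet.{0}) : Prop :=
  ∀ a ∈ M, ∃ f ∈ M, ∀ x ∈ a, x ≠ ∅ → ∃ y ∈ x, ∀ z, ZFSet.pair x z ∈ f ↔ z = y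

/-- The set of reals `X` is an element of `M`. -/
def SetIn (M : ZFSet.{0}) (X : Set ℝ) : Prop :=
  ∃ s ∈ M, ∀ z, z ∈ s ↔ ∃ r ∈ X, z = cut r

/-- `X` is countable in `M`: a single-valued relation in `M` takes every point of `X` as a value
at some natural number. -/
def CtblIn (M : ZFSet.{0}) (X : Set ℝ) : Prop :=
  ∃ g ∈ M, (∀ n y y', ZFSet.pair n y ∈ g → ZFSet.pair n y' ∈ g → y = y') ∧
    ∀ r ∈ X, ∃ n : ℕ, ZFSet.pair (nat n) (cut r) ∈ g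

/-- The set `A` of pairs of rationals is an element of `M`. -/
def CodeIn (M : ZFSet.{0}) (A : Set (ℚ × ℚ)) : Prop :=
  ∃ s ∈ M, ∀ z, z ∈ s ↔ ∃ a ∈ A, z = ZFSet.pair (code a.1) (code a.2)

/-- The open set coded by `A`. -/
def opn (A : Set (ℚ × ℚ)) : Set ℝ := ⋃ a ∈ A, Set.Ioo (a.1 : ℝ) (a.2 : ℝ)

/-- In `M`, the set `Y` is concentrated on `D`. -/
def ConcIn (M : ZFSet.{0}) (Y D : Set ℝ) : Prop :=
  ∀ A, CodeIn M A → D ⊆ opn A → CtblIn M (Y \ opn A)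

/-- In `M`, the set `Z` is a nu-set. -/
def NuIn (M : ZFSet.{0}) (Z : Set ℝ) : Prop :=
  ∀ Y ⊆ Z, SetIn M Y → IsNowhereDense (Subtype.val ⁻¹' Y : Set Z) → CtblIn M Y

/-- The graph of the restriction of `f` to `Z` is an element of `M`. -/
def FunIn (M : ZFSet.{0}) (Z : Set ℝ) (f : ℝ → ℝ) : Prop :=
  ∃ s ∈ M, ∀ z, z ∈ s ↔ ∃ r ∈ Z, z = ZFSet.pair (cut r) (cut (f r))

/-- The Brown-Cox statement holds in `M`. -/
def BrownCoxIn (M : ZFSet.{0}) : Prop :=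
  ∀ X, SetIn M X →
    (∀ Y ⊆ X, SetIn M Y → ∃ D ⊆ Y, SetIn M D ∧ CtblIn M D ∧ ConcIn M Y D) →
    ∃ Z, SetIn M Z ∧ NuIn M Z ∧ ∃ f, FunIn M Z f ∧ ContinuousOn f Z ∧ f '' Z = X

end Pool.Agent.Lib.MP_da5f1d_gt
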