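import Mathlib
import Pool.Agent.Lib.MP_da5f1d_gt.Generic

/-!
The countably closed poset of countable approximations to the counterexample.
-/

set_option autoImplicit false

namespace Pool.Agent.Lib.MP_da5f1d_gt

open Set Topology TopologicalSpace

/-- `K` is generic for `D`. -/
def Gen (K D : Set ℝ) : Prop :=
  ∀ V : Set ℝ, IsOpen V → V ⊆ closure D → (V ∩ K).Nonempty → (V ∩ K ∩ D).Nonempty

/-- Conditions: countably many closed sets, points on them, and promises. -/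
structure Cond where
  Ks : Set (Set ℝ)
  Xs : Set (Set ℝ × ℝ)
  Ds : Set (Set ℝ)
  cK : Ks.Countable
  cX : Xs.Countable
  cD : Ds.Countable
  good : ∀ K ∈ Ks, IsClosed K ∧ K.Nonempty ∧ interior K = ∅ ∧ ∀ a, ND K {a}
  mem : ∀ x ∈ Xs, x.1 ∈ Ks ∧ x.2 ∈ x.1

instance : Preorder Cond where
  le q p := p.Ks ⊆ q.Ks ∧ p.Xs ⊆ q.Xs ∧ p.Ds ⊆ q.Ds ∧
    (∀ K ∈ q.Ks, K ∉ p.Ks → ∀ D ∈ p.Ds, Gen K D) ∧
    ∀ x ∈ q.Xs, x ∉ p.Xs → ∀ D ∈ p.Ds, IsClosed D → ND x.1 D → x.2 ∉ D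
  le_refl p := ⟨subset_rfl, subset_rfl, subset_rfl, fun _ h h' => (h' h).elim,
    fun _ h h' => (h' h).elim⟩
  le_trans r q p h h' := by
    refine ⟨h'.1.trans h.1, h'.2.1.trans h.2.1, h'.2.2.1.trans h.2.2.1, fun K hK hp D hD => ?_,
      fun x hx hp D hD => ?_⟩
    · by_cases hq : K ∈ q.Ks
      · exact h'.2.2.2.1 K hq hp D hD
      · exact h.2.2.2.1 K hK hq D (h'.2.2.1 hD)
    · by_cases hq : x ∈ q.Xs
      · exact h'.2.2.2.2 x hq hp D hD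
      · exact h.2.2.2.2 x hx hq D (h'.2.2.1 hD)

theorem Cond.le_def {q p : Cond} : q ≤ p ↔ p.Ks ⊆ q.Ks ∧ p.Xs ⊆ q.Xs ∧ p.Ds ⊆ q.Ds ∧
    (∀ K ∈ q.Ks, K ∉ p.Ks → ∀ D ∈ p.Ds, Gen K D) ∧
    ∀ x ∈ q.Xs, x ∉ p.Xs → ∀ D ∈ p.Ds, IsClosed D → ND x.1 D → x.2 ∉ D := Iff.rfl

/-- The condition consisting of the promises `𝒟` only. -/
def prom (𝒟 : Set (Set ℝ)) (h : 𝒟.Countable) : Cond :=
  ⟨∅, ∅, 𝒟, countable_empty, countable_empty, h, by simp, by simp⟩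

instance : OrderTop Cond where
  top := prom ∅ countable_empty
  le_top _ := ⟨empty_subset _, empty_subset _, empty_subset _, fun _ _ _ _ h => h.elim,
    fun _ _ _ _ h => h.elim⟩

theorem exists_lim (p : ℕ → Cond) (hp : Antitone p) :
    ∃ q : Cond, (∀ n, q ≤ p n) ∧ ∀ K ∈ q.Ks, ∃ n, K ∈ (p n).Ks := by
  refine ⟨⟨⋃ n, (p n).Ks, ⋃ n, (p n).Xs, ⋃ n, (p n).Ds, countable_iUnion fun n => (p n).cK,
    countable_iUnion fun n => (p n).cX, countable_iUnion fun n => (p n).cD, fun K hK => ?_,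
    fun x hx => ?_⟩, fun n => ⟨subset_iUnion (fun n => (p n).Ks) n,
      subset_iUnion (fun n => (p n).Xs) n, subset_iUnion (fun n => (p n).Ds) n,
      fun K hK hn D hD => ?_, fun x hx hn D hD => ?_⟩, fun K hK => mem_iUnion.1 hK⟩
  · obtain ⟨n, hn⟩ := mem_iUnion.1 hK
    exact (p n).good K hn
  · obtain ⟨n, hn⟩ := mem_iUnion.1 hx
    exact ⟨mem_iUnion.2 ⟨n, ((p n).mem x hn).1⟩, ((p n).mem x hn).2⟩
  · obtain ⟨m, hm⟩ := mem_iUnion.1 hK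
    exact (hp (le_max_left n m)).2.2.2.1 K ((hp (le_max_right n m)).1 hm) hn D hD
  · obtain ⟨m, hm⟩ := mem_iUnion.1 hx
    exact (hp (le_max_left n m)).2.2.2.2 x ((hp (le_max_right n m)).2.1 hm) hn D hD

theorem decide_all {ι : Type} [Countable ι] (S : ι → Set Cond)
    (hS : ∀ i, ∀ p ∈ S i, ∀ q ≤ p, q ∈ S i) (p : Cond) :
    ∃ q ≤ p, ∀ i, q ∈ S i ∨ ∀ r ≤ q, r ∉ S i := by
  rcases isEmpty_or_nonempty ι with h | h
  · exact ⟨p, le_rfl, fun i => h.elim i⟩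
  obtain ⟨e, he⟩ := exists_surjective_nat ι
  have hd : ∀ (i : ι) (p : Cond), ∃ r ≤ p, r ∈ S i ∨ ∀ q ≤ r, q ∉ S i := by
    intro i p
    by_cases hp : ∃ q ≤ p, q ∈ S i
    · obtain ⟨q, h1, h2⟩ := hp
      exact ⟨q, h1, Or.inl h2⟩
    · push Not at hp
      exact ⟨p, le_rfl, Or.inr hp⟩
  choose nx h1 h2 using hd
  let s : ℕ → Cond := fun n => Nat.rec p (fun k r => nx (e k) r) n
  obtain ⟨q, hq, -⟩ := exists_lim s (antitone_nat_of_succ_le fun k => h1 (e k) (s k))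
  refine ⟨q, hq 0, fun i => ?_⟩
  obtain ⟨k, rfl⟩ := he i
  rcases h2 (e k) (s k) with h | h
  · exact Or.inl (hS _ _ h q (hq (k + 1)))
  · exact Or.inr fun r hr => h r (hr.trans (hq (k + 1)))

theorem exists_addD (p : Cond) {𝒟 : Set (Set ℝ)} (h : 𝒟.Countable) :
    ∃ q ≤ p, q.Ks = p.Ks ∧ q.Xs = p.Xs ∧ 𝒟 ⊆ q.Ds :=
  ⟨⟨p.Ks, p.Xs, p.Ds ∪ 𝒟, p.cK, p.cX, p.cD.union h, p.good, p.mem⟩,
    ⟨subset_rfl, subset_rfl, subset_union_left, fun _ h h' => (h' h).elim,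
      fun _ h h' => (h' h).elim⟩, rfl, rfl, subset_union_right⟩

theorem Gen.nd {K D : Set ℝ} (h : Gen K Dᶜ) (hD : interior D = ∅) : ND K D := by
  intro V hV hne
  have hd : Dense Dᶜ := interior_eq_empty_iff_dense_compl.mp hD
  exact h V hV (by rw [hd.closure_eq]; exact subset_univ _) hne

theorem exists_addK (p : Cond) (h : ∀ K ∈ p.Ks, Kᶜ ∈ p.Ds) : ∃ q ≤ p, ∃ K ∈ q.Ks, K ∉ p.Ks := by
  obtain ⟨K, k1, k2, k3, k4⟩ := exists_generic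
    (p.Ds ∪ {range ((↑) : ℚ → ℝ), {x | Irrational x}}) (p.cD.union (Set.toFinite _).countable)
  have k5 : ∀ a, ND K {a} := by
    intro c V hV hne
    obtain ⟨a, ha1, ha2⟩ := k4 (range ((↑) : ℚ → ℝ)) (Or.inr (Or.inl rfl)) V hV
      (by rw [Rat.denseRange_cast.closure_eq]; exact subset_univ _) hne
    obtain ⟨b, hb1, hb2⟩ := k4 {x | Irrational x} (Or.inr (Or.inr rfl)) V hV
      (by rw [dense_irrational.closure_eq]; exact subset_univ _) hne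
    by_cases h : a = c
    · refine ⟨b, hb1, fun hb => hb2 ?_⟩
      rw [mem_singleton_iff.mp hb, ← h]; exact ha2
    · exact ⟨a, ha1, h⟩
  have hK : K ∉ p.Ks := by
    intro hK
    obtain ⟨y, h1, h2⟩ := Gen.nd (fun V => k4 _ (Or.inl (h K hK)) V) k3 univ isOpen_univ
      (by simpa using k2)
    exact h2 h1.2
  refine ⟨⟨insert K p.Ks, p.Xs, p.Ds, p.cK.insert _, p.cX, p.cD, ?_,
    fun x hx => ⟨Or.inr (p.mem x hx).1, (p.mem x hx).2⟩⟩,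
    ⟨subset_insert _ _, subset_rfl, subset_rfl, ?_, fun _ h h' => (h' h).elim⟩,
    K, Or.inl rfl, hK⟩
  · rintro K' (rfl | h')
    exacts [⟨k1, k2, k3, k5⟩, p.good K' h']
  · rintro K' (rfl | h') hn D hD
    exacts [fun V => k4 D (Or.inl hD) V, (hn h').elim]

theorem exists_addX (p : Cond) {K : Set ℝ} (hK : K ∈ p.Ks) {S : Set ℝ} (hS : S.Countable) :
    ∃ q ≤ p, ∃ y, y ∉ S ∧ (K, y) ∈ q.Xs := by
  obtain ⟨k1, k2, -, k4⟩ := p.good K hK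
  obtain ⟨y, y1, y2⟩ := exists_avoid k1 k2
    ({D | D ∈ p.Ds ∧ IsClosed D ∧ ND K D} ∪ (fun a => ({a} : Set ℝ)) '' S)
    ((p.cD.mono fun D hD => hD.1).union (hS.image _))
    (by
      rintro D (hD | ⟨a, -, rfl⟩)
      exacts [hD.2.1, isClosed_singleton])
    (by
      rintro D (hD | ⟨a, -, rfl⟩)
      exacts [hD.2.2, k4 a])
  refine ⟨⟨p.Ks, insert (K, y) p.Xs, p.Ds, p.cK, p.cX.insert _, p.cD, p.good, ?_⟩,
    ⟨subset_rfl, subset_insert _ _, subset_rfl, fun _ h h' => (h' h).elim, ?_⟩, y,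
    fun h => y2 _ (Or.inr ⟨y, h, rfl⟩) rfl, Or.inl rfl⟩
  · rintro x (rfl | hx)
    exacts [⟨hK, y1⟩, p.mem x hx]
  · rintro x (rfl | hx) hn D hD h1 h2
    exacts [y2 D (Or.inl ⟨hD, h1, h2⟩), (hn hx).elim]

theorem exists_rat_Ioo {V : Set ℝ} (hV : IsOpen V) {y : ℝ} (hy : y ∈ V) :
    ∃ a b : ℚ, y ∈ Ioo (a : ℝ) b ∧ Ioo (a : ℝ) b ⊆ V := by
  obtain ⟨l, u, h1, h2⟩ := mem_nhds_iff_exists_Ioo_subset.1 (hV.mem_nhds hy)
  obtain ⟨a, a1, a2⟩ := exists_rat_btwn h1.1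
  obtain ⟨b, b1, b2⟩ := exists_rat_btwn h1.2
  exact ⟨a, b, ⟨a2, b1⟩, (Ioo_subset_Ioo a1.le b2.le).trans h2⟩

/-- The condition `q` has found a countable dense part `C` of the set named by `In`. -/
def Satur (In : Cond → Set ℝ) (q : Cond) (C : Set ℝ) : Prop :=
  C.Countable ∧ C ⊆ In q ∧ (∀ K ∈ insert univ q.Ks, ∀ r ≤ q, In r ∩ K ⊆ closure (C ∩ K)) ∧
    C ∈ q.Ds ∧ (frontier (closure C))ᶜ ∈ q.Ds

theorem exists_satur (In : Cond → Set ℝ) (hIn : ∀ p q, q ≤ p → In p ⊆ In q) (p : Cond) :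
    ∃ q ≤ p, ∃ C, Satur In q C := by
  have h1 : ∀ p : Cond, ∃ q ≤ p, ∀ K ∈ insert univ p.Ks, ∀ a b : ℚ,
      (In q ∩ K ∩ Ioo (a : ℝ) b).Nonempty ∨ ∀ r ≤ q, ¬ (In r ∩ K ∩ Ioo (a : ℝ) b).Nonempty := by
    intro p
    have := (p.cK.insert univ).to_subtype
    obtain ⟨q, q1, q2⟩ := decide_all
      (ι := ↥(insert univ p.Ks : Set (Set ℝ)) × ℚ × ℚ) (fun i =>
        {q | (In q ∩ i.1.1 ∩ Ioo (i.2.1 : ℝ) i.2.2).Nonempty})
      (fun i p hp q hq => hp.mono (inter_subset_inter_left _ (inter_subset_inter_left _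
        (hIn p q hq)))) p
    exact ⟨q, q1, fun K hK a b => q2 (⟨K, hK⟩, a, b)⟩
  choose nx h1 h2 using h1
  let s : ℕ → Cond := fun n => Nat.rec p (fun _ r => nx r) n
  obtain ⟨q, hq, hK⟩ := exists_lim s (antitone_nat_of_succ_le fun k => h1 (s k))
  have h3 : ∀ K ∈ insert univ q.Ks, ∀ r ≤ q, In r ∩ K ⊆ closure (In q ∩ K) := by
    intro K hK' r hr y hy
    obtain ⟨n, hn⟩ : ∃ n, K ∈ insert univ (s n).Ks := by
      rcases hK' with rfl | hK'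
      · exact ⟨0, Or.inl rfl⟩
      · exact (hK K hK').imp fun n hn => Or.inr hn
    refine mem_closure_iff.2 fun V hV hyV => ?_
    obtain ⟨a, b, h4, h5⟩ := exists_rat_Ioo hV hyV
    rcases h2 (s n) K hn a b with ⟨z, h6, h7⟩ | h6
    · exact ⟨z, h5 h7, hIn _ _ (hq (n + 1)) h6.1, h6.2⟩
    · exact (h6 r (hr.trans (hq (n + 1))) ⟨y, hy, h4⟩).elim
  choose D d1 d2 d3 using fun K => exists_dense_sub (In q ∩ K)
  let C : Set ℝ := ⋃ K ∈ insert univ q.Ks, D K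
  obtain ⟨q', a1, a2, -, a4⟩ := exists_addD q (𝒟 := {C, (frontier (closure C))ᶜ})
    (Set.toFinite _).countable
  refine ⟨q', a1.trans (hq 0), C, (q.cK.insert _).biUnion fun K _ => d2 K,
    iUnion₂_subset fun K _ => ((d1 K).trans inter_subset_left).trans (hIn _ _ a1),
    fun K hK' r hr => ?_, a4 (Or.inl rfl), a4 (Or.inr rfl)⟩
  rw [a2] at hK'
  refine (h3 K hK' r (hr.trans a1)).trans (closure_minimal ((d3 K).trans (closure_mono ?_))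
    isClosed_closure)
  exact fun y hy => ⟨mem_biUnion hK' hy, (d1 K hy).2⟩

theorem Satur.old {In : Cond → Set ℝ} {q : Cond} {C : Set ℝ} (h : Satur In q C) {U : Set ℝ}
    (hU : IsOpen U) (hC : C ⊆ U) {r s : Cond}
    (hr : ∀ K ∈ insert univ q.Ks, closure (C ∩ K) \ U ∈ r.Ds) (hsq : s ≤ q) (hsr : s ≤ r)
    {K : Set ℝ} {y : ℝ} (hy : y ∈ In s) (hK : (K, y) ∈ s.Xs) (hyU : y ∉ U) : (K, y) ∈ r.Xs := by
  obtain ⟨-, -, h3, h4, h5⟩ := h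
  by_contra hn
  have hyK : y ∈ K := (s.mem _ hK).2
  by_cases hq : K ∈ q.Ks
  · refine hsr.2.2.2.2 _ hK hn _ (hr K (Or.inr hq)) (isClosed_closure.sdiff hU) ?_
      ⟨h3 K (Or.inr hq) s hsq ⟨hy, hyK⟩, hyU⟩
    rintro V hV ⟨z, hz⟩
    by_cases h2 : z ∈ closure (C ∩ K)
    · obtain ⟨d, d1, d2⟩ := mem_closure_iff.mp h2 V hV hz.1
      exact ⟨d, ⟨d1, d2.2⟩, fun h => h.2 (hC d2.1)⟩
    · exact ⟨z, hz, fun h => h2 h.1⟩
  · have g1 := hsq.2.2.2.1 K (s.mem _ hK).1 hq _ h4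
    have g2 := (hsq.2.2.2.1 K (s.mem _ hK).1 hq _ h5).nd (interior_frontier isClosed_closure)
    refine hsr.2.2.2.2 _ hK hn _ (hr univ (Or.inl rfl)) (isClosed_closure.sdiff hU) ?_
      ⟨h3 univ (Or.inl rfl) s hsq ⟨hy, trivial⟩, hyU⟩
    rw [inter_univ]
    intro V hV hne
    by_cases h2 : (V ∩ interior (closure C) ∩ K).Nonempty
    · obtain ⟨d, ⟨⟨d1, _⟩, d2⟩, d3⟩ := g1 _ (hV.inter isOpen_interior)
        (inter_subset_right.trans interior_subset) h2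
      exact ⟨d, ⟨d1, d2⟩, fun h => h.2 (hC d3)⟩
    · obtain ⟨z, z1, z2⟩ := g2 V hV hne
      refine ⟨z, z1, fun h => z2 ?_⟩
      rw [isClosed_closure.frontier_eq]
      exact ⟨h.1, fun h5 => h2 ⟨z, ⟨z1.1, h5⟩, z1.2⟩⟩

/-- `q` forces that the function named by `Gr` maps the interval into `K`. -/
def Trap (Gr : Cond → Set (ℝ × ℝ)) (a b : ℚ) (K : Set ℝ) (q : Cond) : Prop :=
  ∀ r ≤ q, ∀ w ∈ Gr r, w.1 ∈ Ioo (a : ℝ) b → w.2 ∈ K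

/-- `K'` is new for the function named by `Gr`. -/
def NewK (Gr : Cond → Set (ℝ × ℝ)) (q : Cond) (K' : Set ℝ) : Prop :=
  K' ∈ q.Ks ∧ ∀ a b : ℚ, (∃ K, (∀ r ≤ q, ∀ y, (K', y) ∈ r.Xs → y ∉ K) ∧ Trap Gr a b K q) ∨
    ∀ r ≤ q, ¬ Trap Gr a b K' r

theorem exists_newK (Gr : Cond → Set (ℝ × ℝ)) (p : Cond) : ∃ q ≤ p, ∃ K', NewK Gr q K' := by
  obtain ⟨q0, a1, a2⟩ := decide_all (fun i : ℚ × ℚ => {r | ∃ K ∈ r.Ks, Trap Gr i.1 i.2 K r})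
    (fun i p ⟨K, h1, h2⟩ q hq => ⟨K, hq.1 h1, fun r hr => h2 r (hr.trans hq)⟩) p
  obtain ⟨q1, b1, b2, -, b4⟩ := exists_addD q0 (q0.cK.union (q0.cK.image compl))
  obtain ⟨q, c1, K', c2, c3⟩ := exists_addK q1 fun K hK => b4 (Or.inr ⟨K, b2 ▸ hK, rfl⟩)
  refine ⟨q, (c1.trans b1).trans a1, K', c2, fun a b => ?_⟩
  rcases a2 (a, b) with ⟨K, h1, h2⟩ | h
  · refine Or.inl ⟨K, fun r hr y hy => ?_, fun r hr => h2 r (hr.trans (c1.trans b1))⟩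
    refine (hr.trans c1).2.2.2.2 _ hy (fun h => c3 (q1.mem _ h).1) K (b4 (Or.inl h1))
      (q0.good K h1).1 ?_
    exact (c1.2.2.2.1 K' c2 c3 _ (b4 (Or.inr ⟨K, h1, rfl⟩))).nd (q0.good K h1).2.2.1
  · exact Or.inr fun r hr h' => h r (hr.trans (c1.trans b1)) ⟨K', hr.1 c2, h'⟩

theorem exists_escape (H : ℕ → Cond → Set (ℝ × ℝ)) (hH : ∀ n p q, q ≤ p → H n p ⊆ H n q)
    (p : Cond) {K : Set ℝ} (hK : K ∈ p.Ks) : ∃ r ≤ p, ∃ w : ℕ → ℝ × ℝ, ∃ y,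
      (∀ n, y ≠ (w n).2) ∧ (K, y) ∈ r.Xs ∧ ∀ n, w n ∈ H n r ∨ ∀ s ≤ r, ¬ (H n s).Nonempty := by
  obtain ⟨q, a1, a2⟩ := decide_all (fun n => {q | (H n q).Nonempty})
    (fun n p hp q hq => hp.mono (hH n p q hq)) p
  have : ∀ n, ∃ w, w ∈ H n q ∨ ∀ s ≤ q, ¬ (H n s).Nonempty := by
    intro n
    rcases a2 n with ⟨w, hw⟩ | h
    exacts [⟨w, Or.inl hw⟩, ⟨0, Or.inr h⟩]
  choose w hw using this
  obtain ⟨r, b1, y, b2, b3⟩ := exists_addX q (a1.1 hK) (countable_range fun n => (w n).2)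
  refine ⟨r, b1.trans a1, w, y, fun n h => b2 ⟨n, h.symm⟩, b3, fun n => ?_⟩
  exact (hw n).imp (fun h => hH n _ _ b1 h) fun h s hs => h s (hs.trans b1)

end Pool.Agent.Lib.MP_da5f1d_gt
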