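import Mathlib
import Pool.Agent.Shared.Forcing
import Pool.Agent.Lib.MP_da5f1d_gt.ModelDefs

/-!
A uniform interface to the forcing library: one family of tasks gives both the dense sets and
the witnesses.  Names for rationals, reals, sets of reals and sequences.
-/

set_option autoImplicit false
set_option linter.unusedSectionVars false

namespace Pool.Agent.Lib.MP_da5f1d_gt

open Set Classical Pool.Agent.Lib.MP_053343_lc Pool.Agent.Lib.MP_053343_lc.Name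
  Pool.Agent.Shared.Forcing

theorem cut_inj {r s : ℝ} (h : cut r = cut s) : r = s :=
  eq_of_forall_rat_lt_iff_lt fun q => by rw [← code_mem_cut, h, code_mem_cut]

variable {P : Type} [Preorder P] [OrderTop P]

/-- `p` forces that `σ` is not a member of `τ`. -/
def FNot (σ τ : Name P) (p : P) : Prop := ∀ q ≤ p, ¬ FMem σ τ q

theorem FNot.mono {σ τ : Name P} {p q : P} (h : FNot σ τ p) (hq : q ≤ p) : FNot σ τ q :=
  fun r hr => h r (hr.trans hq)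

/-- The name of a sequence. -/
def sqN (A : ℕ → Name P) : Name P := setN fun n => pairN (natN n) (A n)

/-- The name of a set of reals. -/
def stN (S : Set ℝ) : Name P := setN fun r : S => cutN r

/-- The name of an enumeration of a countable set of reals. -/
noncomputable def enumN (S : Set ℝ) : Name P :=
  setN fun r : S => pairN (natN (enum S r)) (cutN r)

section ctx

variable {ι κ : Type} {R : ι → List (Name P) → Name P → Prop} {D : κ → List (Name P) → Set P}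
  (C : Pool.Agent.Shared.Forcing.Ctx R D)

theorem codeN_mem (q : ℚ) : codeN q ∈ C.N :=
  C.pair_memN (C.natN_mem _) (C.pair_memN (C.natN_mem _) (C.natN_mem _))

theorem val_codeN (q : ℚ) : C.val (codeN q) = code q := by
  have h := codeN_mem C q
  have h1 := C.pairN_right h
  rw [codeN, C.val_pairN h, C.val_pairN h1, C.val_natN, C.val_natN, C.val_natN, code]

theorem val_cutN (r : ℝ) (h : cutN r ∈ C.N) : C.val (cutN r) = cut r := by
  ext x
  rw [cutN, C.mem_val_setN h, mem_cut]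
  constructor
  · rintro ⟨q, rfl⟩
    exact ⟨q.1, q.2, val_codeN C _⟩
  · rintro ⟨q, hq, rfl⟩
    exact ⟨⟨q, hq⟩, (val_codeN C _).symm⟩

theorem mem_iff {σ τ : Name P} (hσ : σ ∈ C.N) (hτ : τ ∈ C.N) :
    C.val σ ∈ C.val τ ↔ ∃ p ∈ C.G, FMem σ τ p := C.val_mem_iff hσ hτ

theorem not_mem_iff {σ τ : Name P} (hσ : σ ∈ C.N) (hτ : τ ∈ C.N) :
    C.val σ ∉ C.val τ ↔ ∃ p ∈ C.G, FNot σ τ p := by
  rw [C.val_mem_iff hσ hτ]
  constructor
  · intro h
    obtain ⟨r, hr, h1 | h1⟩ := C.gfrc (.mem 0 1) (C.two hσ hτ)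
    · exact (h ⟨r, hr, h1⟩).elim
    · exact ⟨r, hr, h1⟩
  · rintro ⟨p, hp, h⟩ ⟨q, hq, h'⟩
    obtain ⟨r, _, r1, r2⟩ := C.dir p hp q hq
    exact h r r1 (h'.mono r2)

theorem pair_mem_iff {σ τ υ : Name P} (hσ : σ ∈ C.N) (hτ : τ ∈ C.N) (hυ : υ ∈ C.N) :
    ZFSet.pair (C.val σ) (C.val τ) ∈ C.val υ ↔ ∃ p ∈ C.G, FMem (pairN σ τ) υ p := by
  rw [← C.val_pairN (C.pair_memN hσ hτ)]
  exact C.val_mem_iff (C.pair_memN hσ hτ) hυ

theorem code_mem_iff {τ : Name P} (hτ : τ ∈ C.N) {r : ℝ} (h : C.val τ = cut r) (a : ℚ) :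
    (a : ℝ) < r ↔ ∃ p ∈ C.G, FMem (codeN a) τ p := by
  rw [← code_mem_cut, ← h, ← val_codeN C, C.val_mem_iff (codeN_mem C a) hτ]

theorem code_not_mem_iff {τ : Name P} (hτ : τ ∈ C.N) {r : ℝ} (h : C.val τ = cut r) (a : ℚ) :
    r ≤ (a : ℝ) ↔ ∃ p ∈ C.G, FNot (codeN a) τ p := by
  rw [← not_lt, ← code_mem_cut, ← h, ← val_codeN C, not_mem_iff C (codeN_mem C a) hτ]

theorem sqN_child {A : ℕ → Name P} (h : sqN A ∈ C.N) (n : ℕ) : A n ∈ C.N :=
  C.pairN_right (C.setN_child h n)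

theorem mem_val_sqN {A : ℕ → Name P} (h : sqN A ∈ C.N) {z : ZFSet} :
    z ∈ C.val (sqN A) ↔ ∃ n, z = ZFSet.pair (nat n) (C.val (A n)) := by
  rw [sqN, C.mem_val_setN h]
  refine exists_congr fun n => ?_
  rw [C.val_pairN (C.setN_child h n), C.val_natN]

theorem ctbl_of_sqN {A : ℕ → Name P} (h : sqN A ∈ C.N) {X : Set ℝ}
    (hX : ∀ r ∈ X, ∃ n, C.val (A n) = cut r) : CtblIn C.M X := by
  refine ⟨_, C.val_mem_M h, fun n y y' h1 h2 => ?_, fun r hr => ?_⟩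
  · obtain ⟨a, ha⟩ := (mem_val_sqN C h).1 h1
    obtain ⟨b, hb⟩ := (mem_val_sqN C h).1 h2
    rw [ZFSet.pair_inj] at ha hb
    rw [ha.2, hb.2, nat_inj (ha.1.symm.trans hb.1)]
  · obtain ⟨n, hn⟩ := hX r hr
    exact ⟨n, (mem_val_sqN C h).2 ⟨n, by rw [hn]⟩⟩

theorem stN_child {S : Set ℝ} (hS : S.Countable) (h : stN S ∈ C.N) {r : ℝ} (hr : r ∈ S) :
    cutN r ∈ C.N := by
  have := hS.to_subtype
  exact C.setN_child h ⟨r, hr⟩

theorem setIn_of_stN {S : Set ℝ} (hS : S.Countable) (h : stN S ∈ C.N) : SetIn C.M S := by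
  have := hS.to_subtype
  refine ⟨_, C.val_mem_M h, fun z => ?_⟩
  rw [stN, C.mem_val_setN h]
  constructor
  · rintro ⟨r, rfl⟩
    exact ⟨r, r.2, val_cutN C _ (stN_child C hS h r.2)⟩
  · rintro ⟨r, hr, rfl⟩
    exact ⟨⟨r, hr⟩, (val_cutN C _ (stN_child C hS h hr)).symm⟩

theorem ctbl_of_enumN {S : Set ℝ} (hS : S.Countable) (h : enumN S ∈ C.N) : CtblIn C.M S := by
  have := hS.to_subtype
  have key : ∀ z, z ∈ C.val (enumN S) ↔ ∃ r : S, z = ZFSet.pair (nat (enum S r)) (cut r) := by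
    intro z
    rw [enumN, C.mem_val_setN h]
    refine exists_congr fun r => ?_
    have h1 := C.setN_child h r
    rw [C.val_pairN h1, C.val_natN, val_cutN C _ (C.pairN_right h1)]
  refine ⟨_, C.val_mem_M h, fun n y y' h1 h2 => ?_, fun r hr => ?_⟩
  · obtain ⟨a, ha⟩ := (key _).1 h1
    obtain ⟨b, hb⟩ := (key _).1 h2
    rw [ZFSet.pair_inj] at ha hb
    rw [ha.2, hb.2, enum_inj S (nat_inj (ha.1.symm.trans hb.1))]
  · exact ⟨_, (key _).2 ⟨⟨r, hr⟩, rfl⟩⟩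

end ctx

theorem CtblIn.mono {M : ZFSet} {X Y : Set ℝ} (h : CtblIn M Y) (hX : X ⊆ Y) : CtblIn M X := by
  obtain ⟨g, h1, h2, h3⟩ := h
  exact ⟨g, h1, h2, fun r hr => h3 r (hX hr)⟩

section task

variable {ι : Type} (Φ : ι → List (Name P) → Name P → P → Prop)

/-- The witness relations of a family of tasks. -/
def tR : ι → List (Name P) → Name P → Prop := fun i l x =>
  ∃ p, dC (l.getD 0 empty) ≤ p ∧ ∃ y, Φ i l.tail y p ∧ x = pairN (cN p) y

/-- The sets of conditions of a family of tasks. -/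
def tD : ι → List (Name P) → Set P := fun i l => {p | ∃ y, Φ i l y p}

/-- A context for a family of tasks. -/
abbrev TC : Type 1 := Pool.Agent.Shared.Forcing.Ctx (tR Φ) (tD Φ)

variable {Φ} (C : TC Φ)

theorem wit (i : ι) {l : List (Name P)} (hl : ∀ x ∈ l, x ∈ C.N) {p : P} (hp : p ∈ C.G)
    (h : ∃ y, Φ i l y p) : ∃ q ∈ C.G, cN q ∈ C.N ∧ ∃ y ∈ C.N, Φ i l y q := by
  obtain ⟨y, hy⟩ := h
  obtain ⟨q, hq, q1, q2⟩ := C.cof p hp
  obtain ⟨x, hx, p', h1, y', h2, rfl⟩ := C.uwit i (C.cons q2 hl)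
    ⟨_, p, by simpa using q1, y, hy, rfl⟩
  simp only [List.getD_cons_zero, dC_cN] at h1
  exact ⟨p', C.up q hq _ h1, C.pairN_left hx, y', C.pairN_right hx, h2⟩

theorem dich (i : ι) {l : List (Name P)} (hl : ∀ x ∈ l, x ∈ C.N) :
    (∃ q ∈ C.G, cN q ∈ C.N ∧ ∃ y ∈ C.N, Φ i l y q) ∨ ∃ p ∈ C.G, ∀ q ≤ p, ∀ y, ¬ Φ i l y q := by
  obtain ⟨p, hp, h | h⟩ := C.udec i hl
  · exact Or.inl (wit C i hl hp h)
  · exact Or.inr ⟨p, hp, fun q hq y hy => h q hq ⟨y, hy⟩⟩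

theorem dense (i : ι) {l : List (Name P)} (hl : ∀ x ∈ l, x ∈ C.N) {p : P} (hp : p ∈ C.G)
    (h : ∀ q ≤ p, ∃ r ≤ q, ∃ y, Φ i l y r) :
    ∃ q ∈ C.G, cN q ∈ C.N ∧ ∃ y ∈ C.N, Φ i l y q := by
  obtain ⟨q, hq, h'⟩ := C.udense i hl hp h
  exact wit C i hl hq h'

theorem fn (i : ι) {l : List (Name P)} (hl : ∀ x ∈ l, x ∈ C.N) {y : Name P}
    (h : ∀ x p, Φ i l x p ↔ x = y) : y ∈ C.N := by
  obtain ⟨q, -, -, x, hx, e⟩ := wit C i hl C.top ⟨y, (h y ⊤).2 rfl⟩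
  rwa [(h x q).1 e] at hx

end task

end Pool.Agent.Lib.MP_da5f1d_gt
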