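import Mathlib
import Pool.Agent.Lib.MP_da5f1d_gt.Task
import Pool.Agent.Lib.MP_da5f1d_gt.NegPoset

/-!
A transitive model of ZFC in which the Brown-Cox statement fails.
-/

set_option autoImplicit false

namespace Pool.Agent.Lib.MP_da5f1d_gt

open Set Classical Topology Pool.Agent.Lib.MP_053343_lc Pool.Agent.Lib.MP_053343_lc.Name
  Pool.Agent.Shared.Forcing

namespace Neg

/-- A set of reals coded as a name. -/
def sN (S : Set ℝ) : Name Cond := cN (prom {S} (countable_singleton S))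

/-- Decoding of sets of reals. -/
noncomputable def dS (c : Name Cond) : Set ℝ := ⋃₀ (dC c).Ds

@[simp] theorem dS_sN (S : Set ℝ) : dS (sN S) = S := by simp [dS, sN, prom]

def pts (q : Cond) : Set ℝ := Prod.snd '' q.Xs

theorem pts_ctbl (q : Cond) : (pts q).Countable := q.cX.image _

def XN : Name Cond := ⟨{x : ℝ × Cond // x.1 ∈ pts x.2}, fun x => cutN x.1.1, fun x => x.1.2⟩

def InN (τ : Name Cond) (q : Cond) : Set ℝ := {y | FMem (cutN y) τ q}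

def GrN (φ : Name Cond) (q : Cond) : Set (ℝ × ℝ) := {w | FMem (pairN (cutN w.1) (cutN w.2)) φ q}

def prQ (a : ℚ × ℚ) : Name Cond := pairN (codeN a.1) (codeN a.2)

def YN (φ : Name Cond) (K : Set ℝ) : Name Cond :=
  ⟨{x : ℝ × Cond // ∃ y, (x.1, y) ∈ GrN φ x.2 ∧ (K, y) ∈ x.2.Xs}, fun x => cutN x.1.1,
    fun x => x.1.2⟩

def HN (φ g : Name Cond) (n : ℕ) (r : Cond) : Set (ℝ × ℝ) :=
  {w | FMem (pairN (natN n) (cutN w.1)) g r ∧ w ∈ GrN φ r}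

inductive NT : Type
  | xn | pts | real | sat | conc | newk | yn | trap (a b : ℚ) | esc
  deriving Countable

def Φ : NT → List (Name Cond) → Name Cond → Cond → Prop
  | .xn, _, x, _ => x = XN
  | .pts, l, x, _ => x = pairN (enumN (pts (dC (l.getD 0 empty)))) (stN (pts (dC (l.getD 0 empty))))
  | .real, l, x, r => (∀ a : ℚ, FMem (codeN a) (l.getD 0 empty) r ∨
      FNot (codeN a) (l.getD 0 empty) r) ∧
      ∀ z : ℝ, (∀ a : ℚ, FMem (codeN a) (l.getD 0 empty) r ↔ (a : ℝ) < z) → x = cutN z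
  | .sat, l, x, q => ∃ C, Satur (InN (l.getD 0 empty)) q C ∧
      x = pairN (sN C) (pairN (enumN C) (stN C))
  | .conc, l, _, r => (∀ a, FMem (prQ a) (l.getD 0 empty) r ∨ FNot (prQ a) (l.getD 0 empty) r) ∧
      ∀ K ∈ insert univ (dC (l.getD 1 empty)).Ks, closure (dS (l.getD 2 empty) ∩ K) \
        opn {a | FMem (prQ a) (l.getD 0 empty) r} ∈ r.Ds
  | .newk, l, x, q => ∃ K, NewK (GrN (l.getD 0 empty)) q K ∧ x = sN K
  | .yn, l, x, _ => x = YN (l.getD 0 empty) (dS (l.getD 1 empty))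
  | .trap a b, l, x, r => ∃ w ∈ GrN (l.getD 0 empty) r, w.1 ∈ Ioo (a : ℝ) b ∧
      w.2 ∉ dS (l.getD 1 empty) ∧ x = pairN (cutN w.1) (cutN w.2)
  | .esc, l, x, r => ∃ w : ℕ → ℝ × ℝ, ∃ y, (∀ n, y ≠ (w n).2) ∧ (dS (l.getD 2 empty), y) ∈ r.Xs ∧
      (∀ n, w n ∈ HN (l.getD 0 empty) (l.getD 1 empty) n r ∨
        ∀ s ≤ r, ¬ (HN (l.getD 0 empty) (l.getD 1 empty) n s).Nonempty) ∧
      x = sqN fun n => pairN (cutN (w n).1) (cutN (w n).2)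

variable (C : TC Φ)

theorem pts_mem {q : Cond} (h : cN q ∈ C.N) : enumN (pts q) ∈ C.N ∧ stN (pts q) ∈ C.N := by
  have : pairN (enumN (pts q)) (stN (pts q)) ∈ C.N :=
    fn C .pts (C.one h) fun _ _ => by simp [Φ]
  exact ⟨C.pairN_left this, C.pairN_right this⟩

theorem cutN_of_pts {q : Cond} (hq : q ∈ C.G) {K : Set ℝ} {y : ℝ} (h : (K, y) ∈ q.Xs) :
    cutN y ∈ C.N := by
  obtain ⟨r, -, r1, r2⟩ := C.cof q hq
  exact stN_child C (pts_ctbl r) (pts_mem C r2).2 ⟨_, r1.2.1 h, rfl⟩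

/-- No new reals. -/
theorem cutN_mem {z : ℝ} (h : cut z ∈ C.M) : cutN z ∈ C.N := by
  obtain ⟨σ, hσ, e⟩ := C.mem_M.1 h
  obtain ⟨r, hr, -, x, hx, h1, h2⟩ := dense C .real (C.one hσ) C.top fun q _ => by
    obtain ⟨r, r1, r2⟩ := decide_all (fun a : ℚ => {p | FMem (codeN a) σ p})
      (fun _ _ hp _ hq => FMem.mono hp hq) q
    by_cases hz : ∃ z : ℝ, ∀ a : ℚ, FMem (codeN a) σ r ↔ (a : ℝ) < z
    · obtain ⟨z, hz⟩ := hz
      refine ⟨r, r1, cutN z, r2, fun z' hz' => ?_⟩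
      rw [eq_of_forall_rat_lt_iff_lt (x := z) (y := z') fun a => (hz a).symm.trans (hz' a)]
    · exact ⟨r, r1, empty, r2, fun z' hz' => (hz ⟨z', hz'⟩).elim⟩
  rw [← h2 z fun a => ?_]
  · exact hx
  · rw [code_mem_iff C hσ e]
    refine ⟨fun h => ⟨r, hr, h⟩, fun ⟨s, hs, h⟩ => (h1 a).resolve_right fun h' => ?_⟩
    obtain ⟨t, -, t1, t2⟩ := C.dir r hr s hs
    exact h' t t1 (h.mono t2)

/-- The generic set of reals. -/
def XX : Set ℝ := {y | ∃ p ∈ C.G, y ∈ pts p}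

theorem setIn_XX : SetIn C.M (XX C) := by
  have h : XN ∈ C.N := fn C .xn C.nil fun _ _ => Iff.rfl
  refine ⟨_, C.val_mem_M h, fun z => ?_⟩
  rw [C.mem_val]
  constructor
  · rintro ⟨⟨⟨y, p⟩, hy⟩, a, b, rfl⟩
    exact ⟨y, ⟨p, b, hy⟩, val_cutN C y a⟩
  · rintro ⟨y, ⟨p, hp, hy⟩, rfl⟩
    obtain ⟨⟨K, y⟩, h1, rfl⟩ := hy
    have := cutN_of_pts C hp h1
    exact ⟨⟨(y, p), _, h1, rfl⟩, this, hp, (val_cutN C y this).symm⟩

theorem hered {Y : Set ℝ} (hY : Y ⊆ XX C) (hM : SetIn C.M Y) :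
    ∃ D ⊆ Y, SetIn C.M D ∧ CtblIn C.M D ∧ ConcIn C.M Y D := by
  obtain ⟨s, hs, hsY⟩ := hM
  obtain ⟨τ, hτ, rfl⟩ := C.mem_M.1 hs
  have key : ∀ y, cutN y ∈ C.N → (y ∈ Y ↔ ∃ p ∈ C.G, y ∈ InN τ p) := by
    intro y hy
    refine Iff.trans ?_ (mem_iff C hy hτ)
    rw [val_cutN C y hy, hsY]
    exact ⟨fun h => ⟨y, h, rfl⟩, fun ⟨y', h, e⟩ => by rwa [cut_inj e]⟩
  have hIn : ∀ p q, q ≤ p → InN τ p ⊆ InN τ q := fun p q hq y hy => FMem.mono hy hq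
  obtain ⟨q, hq, hqN, x, hx, D, hD, rfl⟩ := dense C .sat (C.one hτ) C.top fun q _ => by
    obtain ⟨r, r1, D, hD⟩ := exists_satur (InN τ) hIn q
    exact ⟨r, r1, _, D, hD, rfl⟩
  change Satur (InN τ) q D at hD
  have d1 := C.pairN_left hx
  have d2 := C.pairN_left (C.pairN_right hx)
  have d3 := C.pairN_right (C.pairN_right hx)
  refine ⟨D, fun y hy => (key y (stN_child C hD.1 d3 hy)).2 ⟨q, hq, hD.2.1 hy⟩,
    setIn_of_stN C hD.1 d3, ctbl_of_enumN C hD.1 d2, ?_⟩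
  rintro A ⟨s, hs, hsA⟩ hDA
  obtain ⟨υ, hυ, rfl⟩ := C.mem_M.1 hs
  obtain ⟨r, hr, hrN, -, -, r1, r2⟩ := dense C .conc (C.three hυ hqN d1) C.top fun p _ => by
    obtain ⟨r, r1, r2⟩ := decide_all (fun a : ℚ × ℚ => {p | FMem (prQ a) υ p})
      (fun _ _ hp _ hq => FMem.mono hp hq) p
    obtain ⟨r', a1, -, -, a2⟩ := exists_addD r ((q.cK.insert univ).image
      fun K => closure (D ∩ K) \ opn {a | FMem (prQ a) υ r})
    have e : {a | FMem (prQ a) υ r'} = {a | FMem (prQ a) υ r} := by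
      ext a
      exact ⟨fun h => (r2 a).resolve_right fun h' => h' r' a1 h, fun h => FMem.mono h a1⟩
    refine ⟨r', a1.trans r1, empty, fun a => (r2 a).imp (fun h => FMem.mono h a1)
      fun h => FNot.mono h a1, fun K hK => ?_⟩
    simp only [List.getD_cons_zero, List.getD_cons_succ, dC_cN, dS_sN] at hK ⊢
    rw [e]
    exact a2 ⟨K, hK, rfl⟩
  simp only [List.getD_cons_zero, List.getD_cons_succ, dC_cN, dS_sN] at r1 r2
  have e : {a | FMem (prQ a) υ r} = A := by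
    ext a
    have h1 : a ∈ A ↔ ∃ p ∈ C.G, FMem (prQ a) υ p := by
      refine Iff.trans ?_ (pair_mem_iff C (codeN_mem C a.1) (codeN_mem C a.2) hυ)
      rw [val_codeN, val_codeN, hsA]
      refine ⟨fun h => ⟨a, h, rfl⟩, fun ⟨b, h, e⟩ => ?_⟩
      rw [ZFSet.pair_inj] at e
      rwa [Prod.ext (code_inj e.1) (code_inj e.2)]
    rw [h1]
    refine ⟨fun h => ⟨r, hr, h⟩, fun ⟨s, hs, h⟩ => (r1 a).resolve_right fun h' => ?_⟩
    obtain ⟨t, -, t1, t2⟩ := C.dir r hr s hs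
    exact h' t t1 (h.mono t2)
  rw [e] at r2
  refine (ctbl_of_enumN C (pts_ctbl r) (pts_mem C hrN).1).mono ?_
  rintro y ⟨hy, hyU⟩
  obtain ⟨p, hp, ⟨K, y⟩, h1, rfl⟩ := hY hy
  obtain ⟨p', hp', h2⟩ := (key _ (cutN_of_pts C hp h1)).1 hy
  obtain ⟨s, hs, s1, s2, s3⟩ := C.dir3 hp hp' hq
  obtain ⟨t, -, t1, t2⟩ := C.dir s hs r hr
  exact ⟨_, hD.old (isOpen_biUnion fun _ _ => isOpen_Ioo) hDA r2 (t1.trans s3) t2
    (hIn _ _ (t1.trans s2) h2) ((t1.trans s1).2.1 h1) hyU, rfl⟩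

theorem not_image {Z : Set ℝ} (hν : NuIn C.M Z) {f : ℝ → ℝ} (hf : FunIn C.M Z f)
    (hc : ContinuousOn f Z) (hX : f '' Z = XX C) : False := by
  obtain ⟨s, hs, hsf⟩ := hf
  obtain ⟨φ, hφ, rfl⟩ := C.mem_M.1 hs
  have key : ∀ z y, cutN z ∈ C.N → cutN y ∈ C.N →
      ((z ∈ Z ∧ y = f z) ↔ ∃ p ∈ C.G, (z, y) ∈ GrN φ p) := by
    intro z y hz hy
    refine Iff.trans ?_ (pair_mem_iff C hz hy hφ)
    rw [val_cutN C z hz, val_cutN C y hy, hsf]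
    refine ⟨fun h => ⟨z, h.1, by rw [h.2]⟩, fun ⟨z', h, e⟩ => ?_⟩
    rw [ZFSet.pair_inj] at e
    rw [cut_inj e.1, cut_inj e.2]
    exact ⟨h, rfl⟩
  have hZ : ∀ z ∈ Z, cutN z ∈ C.N ∧ cutN (f z) ∈ C.N := by
    intro z hz
    have h1 := C.trans _ hs ((hsf _).2 ⟨z, hz, rfl⟩)
    have h2 : ({cut z, cut (f z)} : ZFSet) ∈ C.M := C.trans _ h1 (by simp [ZFSet.pair])
    exact ⟨cutN_mem C (C.trans _ h2 (by simp)), cutN_mem C (C.trans _ h2 (by simp))⟩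
  obtain ⟨q, hq, -, x, hx, K, hK, rfl⟩ := dense C .newk (C.one hφ) C.top fun q _ => by
    obtain ⟨r, r1, K, hK⟩ := exists_newK (GrN φ) q
    exact ⟨r, r1, _, K, hK, rfl⟩
  change NewK (GrN φ) q K at hK
  have hYN : YN φ K ∈ C.N := fn C .yn (C.two hφ hx) fun _ _ => by simp [Φ]
  let Y : Set ℝ := {z | z ∈ Z ∧ ∃ r ∈ C.G, (K, f z) ∈ r.Xs}
  have hY : SetIn C.M Y := by
    refine ⟨_, C.val_mem_M hYN, fun z => ?_⟩
    rw [C.mem_val]
    constructor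
    · rintro ⟨⟨⟨z, p⟩, y, h1, h2⟩, a, b, rfl⟩
      obtain ⟨h3, rfl⟩ := (key z y a (cutN_of_pts C b h2)).2 ⟨p, b, h1⟩
      exact ⟨z, ⟨h3, p, b, h2⟩, val_cutN C z a⟩
    · rintro ⟨z, ⟨hz, p, hp, h1⟩, rfl⟩
      obtain ⟨p', hp', h2⟩ := (key z _ (hZ z hz).1 (hZ z hz).2).1 ⟨hz, rfl⟩
      obtain ⟨r, hr, r1, r2⟩ := C.dir p hp p' hp'
      exact ⟨⟨(z, r), f z, FMem.mono h2 r2, r1.2.1 h1⟩, (hZ z hz).1, hr,
        (val_cutN C z (hZ z hz).1).symm⟩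
  have hnd : IsNowhereDense (Subtype.val ⁻¹' Y : Set Z) := by
    rw [IsNowhereDense, eq_empty_iff_forall_notMem]
    intro w hw
    obtain ⟨V, hV, hVe⟩ := isOpen_induced_iff.1
      (isOpen_interior (s := closure (Subtype.val ⁻¹' Y : Set Z)))
    obtain ⟨a, b, h1, h2⟩ := exists_rat_Ioo hV (show w.1 ∈ V by rw [← hVe] at hw; exact hw)
    have h3 : ∀ z : Z, z.1 ∈ Ioo (a : ℝ) b → z ∈ closure (Subtype.val ⁻¹' Y : Set Z) :=
      fun z hz => interior_subset (hVe ▸ h2 hz)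
    have h4 : closure (Subtype.val ⁻¹' Y : Set Z) ⊆ Z.domRestrict f ⁻¹' K := by
      refine closure_minimal ?_ ((q.good K hK.1).1.preimage hc.domRestrict)
      rintro z ⟨-, r, -, hr⟩
      exact (r.mem _ hr).2
    rcases dich C (.trap a b) (C.two hφ hx) with ⟨r, hr, -, x, hx, w', w1, w2, w3, rfl⟩ | ⟨r, hr, h⟩
    · simp only [List.getD_cons_zero, List.getD_cons_succ, dS_sN] at w1 w3
      obtain ⟨h5, h6⟩ := (key _ _ (C.pairN_left hx) (C.pairN_right hx)).2 ⟨r, hr, w1⟩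
      exact w3 (h6 ▸ h4 (h3 ⟨_, h5⟩ w2))
    · rcases hK.2 a b with ⟨K', k1, k2⟩ | k
      · obtain ⟨z, z1, hz, p, hp, z2⟩ := mem_closure_iff.1 (h3 w h1) (Subtype.val ⁻¹' Ioo (a : ℝ) b)
          (isOpen_Ioo.preimage continuous_subtype_val) h1
        obtain ⟨p', hp', h2⟩ := (key _ _ (hZ _ hz).1 (hZ _ hz).2).1 ⟨hz, rfl⟩
        obtain ⟨s, -, s1, s2, s3⟩ := C.dir3 hp hp' hq
        exact k1 s s3 _ (s1.2.1 z2) (k2 s s3 (z.1, f z.1) (FMem.mono h2 s2) z1)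
      · obtain ⟨s, -, s1, s2⟩ := C.dir r hr q hq
        refine k s s2 fun t ht w' w1 w2 => ?_
        by_contra w3
        exact h t (ht.trans s1) _ ⟨w', w1, w2, by simpa using w3, rfl⟩
  obtain ⟨g, hg, g1, g2⟩ := hν Y (fun z hz => hz.1) hY hnd
  obtain ⟨γ, hγ, rfl⟩ := C.mem_M.1 hg
  obtain ⟨r, hr, -, x, hx', w, y, w1, w2, w3, rfl⟩ := dense C .esc (C.three hφ hγ hx) hq
    fun p hp => by
      obtain ⟨r, r1, w, y, h1, h2, h3⟩ := exists_escape (HN φ γ)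
        (fun n p q hq w hw => ⟨FMem.mono hw.1 hq, FMem.mono hw.2 hq⟩) p (hp.1 hK.1)
      exact ⟨r, r1, _, w, y, h1, by simpa using h2, h3, rfl⟩
  simp only [List.getD_cons_zero, List.getD_cons_succ, dS_sN] at w2 w3
  obtain ⟨z, hz, rfl⟩ : y ∈ f '' Z := hX ▸ ⟨r, hr, _, w2, rfl⟩
  obtain ⟨n, hn⟩ := g2 z ⟨hz, r, hr, w2⟩
  rcases w3 n with h | h
  · have h1 := sqN_child C hx' n
    obtain ⟨-, h3⟩ := (key _ _ (C.pairN_left h1) (C.pairN_right h1)).2 ⟨r, hr, h.2⟩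
    have h4 := (pair_mem_iff C (C.natN_mem n) (C.pairN_left h1) hγ).2 ⟨r, hr, h.1⟩
    rw [C.val_natN, val_cutN C _ (C.pairN_left h1)] at h4
    exact w1 n (by rw [h3, cut_inj (g1 _ _ _ hn h4)])
  · rw [← C.val_natN, ← val_cutN C z (hZ z hz).1,
      pair_mem_iff C (C.natN_mem n) (hZ z hz).1 hγ] at hn
    obtain ⟨p, hp, h1⟩ := hn
    obtain ⟨p', hp', h2⟩ := (key _ _ (hZ _ hz).1 (hZ _ hz).2).1 ⟨hz, rfl⟩
    obtain ⟨s, -, s1, s2, s3⟩ := C.dir3 hp hp' hr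
    exact h s s3 ⟨(z, f z), FMem.mono h1 s1, FMem.mono h2 s2⟩

end Neg

theorem exists_model_neg : ∃ M : ZFSet.{0}, ModelZF M ∧ AC M ∧ ¬ BrownCoxIn M := by
  obtain ⟨C⟩ := exists_ctx (tR Neg.Φ) (tD Neg.Φ)
  refine ⟨C.M, C.modelZF, C.choice, fun h => ?_⟩
  obtain ⟨Z, -, h1, f, h2, h3, h4⟩ := h _ (Neg.setIn_XX C) fun Y => Neg.hered C
  exact Neg.not_image C h1 h2 h3 h4

end Pool.Agent.Lib.MP_da5f1d_gt
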