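import Mathlib
import Pool.Agent.Lib.MP_da5f1d_gt.Task
import Pool.Agent.Lib.MP_da5f1d_gt.Hechler

/-!
A transitive model of ZFC in which every set of reals concentrated on a countable set is
countable, so that the Brown-Cox statement holds.
-/

set_option autoImplicit false

namespace Pool.Agent.Lib.MP_da5f1d_gt

open Set Classical Cardinal Pool.Agent.Lib.MP_053343_lc Pool.Agent.Lib.MP_053343_lc.Name
  Pool.Agent.Shared.Forcing HP

namespace Pos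

/-- The length of the iteration. -/
abbrev II : Type := (Order.succ continuum.{0}).ord.ToType

/-- The forcing. -/
abbrev PP : Type := HP II

theorem bdd (S : Set II) (hS : #S ≤ continuum) : ∃ a, ∀ b ∈ S, b < a := by
  have hI : #II = Order.succ continuum := Cardinal.mk_ord_toType _
  have h1 : ∀ i : II, #(Iic i) ≤ continuum := by
    intro i
    rw [← Iio_insert]
    have h3 := Cardinal.mk_Iio_lt i (by simp [II])
    rw [hI, Order.lt_succ_iff] at h3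
    exact mk_insert_le.trans (add_le_of_le aleph0_le_continuum h3
      (one_le_aleph0.trans aleph0_le_continuum))
  have h2 : #(⋃ b : S, Iic (b : II)) ≤ continuum := by
    refine (mk_iUnion_le _).trans ?_
    exact (mul_le_mul' hS (ciSup_le' fun b : S => h1 b)).trans continuum_mul_self.le
  have h3 : (⋃ b : S, Iic (b : II)) ≠ Set.univ := by
    intro h
    rw [h, mk_univ, hI] at h2
    exact (Order.lt_succ continuum).not_ge h2
  obtain ⟨a, ha⟩ := (ne_univ_iff_exists_notMem _).1 h3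
  exact ⟨a, fun b hb => not_le.1 fun h => ha (mem_iUnion.2 ⟨⟨b, hb⟩, h⟩)⟩

theorem exists_closed {X : Type 1} (x0 : X) (new : (ℕ → X) → ℕ → X) (h : X → II) :
    ∃ T : Set X, x0 ∈ T ∧ (∀ t, (∀ n, t n ∈ T) → ∀ i, new t i ∈ T) ∧ ∃ a, ∀ x ∈ T, h x < a := by
  let β : Option ℕ → Type := fun a => {_n : ℕ // a.isSome}
  let ev : WType β → X := WType.elim X fun s => match s with
    | ⟨none, _⟩ => x0
    | ⟨some i, f⟩ => new (fun n => f ⟨n, rfl⟩) i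
  have hW : #(WType β) ≤ continuum := by
    refine WType.cardinalMk_le_of_le ((sum_le_sum _ (fun _ => continuum) fun a => ?_).trans ?_)
    · exact (power_le_power_left continuum_ne_zero
        (mk_le_aleph0 (α := {_n : ℕ // a.isSome}))).trans continuum_power_aleph0.le
    · simp
  obtain ⟨a, ha⟩ := bdd (range (h ∘ ev)) (mk_range_le.trans hW)
  refine ⟨range ev, ⟨WType.mk none fun n => by simpa using n.2, rfl⟩, fun t ht i => ?_, a, ?_⟩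
  · choose w hw using ht
    refine ⟨WType.mk (some i) fun n => w n.1, ?_⟩
    change new (fun n => ev (w n)) i = _
    simp only [hw]
  · rintro _ ⟨w, rfl⟩
    exact ha _ ⟨w, rfl⟩

theorem ccc_wit {X : Type*} (Ψ : X → PP → Prop) (hΨ : ∀ x p q, Ψ x p → q ≤ p → Ψ x q)
    {T : Set X} {x0 : X} (h0 : x0 ∈ T) :
    ∃ t : ℕ → X, (∀ i, t i ∈ T) ∧ ∀ x ∈ T, ∀ p, Ψ x p → ∃ r ≤ p, ∃ i, Ψ (t i) r := by
  obtain ⟨D, d1, d2, d3⟩ := ccc {p : PP | ∃ x ∈ T, Ψ x p}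
  rcases D.eq_empty_or_nonempty with rfl | hne
  · refine ⟨fun _ => x0, fun _ => h0, fun x hx p hp => ?_⟩
    obtain ⟨_, h, -⟩ := d3 p ⟨x, hx, hp⟩
    exact h.elim
  · obtain ⟨s, rfl⟩ := d2.exists_eq_range hne
    choose t t1 t2 using fun i => d1 (mem_range_self i)
    refine ⟨t, t1, fun x hx p hp => ?_⟩
    obtain ⟨_, ⟨i, rfl⟩, r, r1, r2⟩ := d3 p ⟨x, hx, hp⟩
    exact ⟨r, r1, i, hΨ _ _ _ (t2 i) r2⟩

noncomputable def prQ (a : ℚ × ℚ) : Name PP := pairN (codeN a.1) (codeN a.2)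

/-- `p` forces that `τ` is the value of `η` at `k`, lies in `ξ`, and lies in the left half of the
interval from `a` to `b`. -/
def El (ξ η τ : Name PP) (k : ℕ) (a b : ℚ) (p : PP) : Prop :=
  FMem (pairN (natN k) τ) η p ∧ FMem τ ξ p ∧ FMem (codeN a) τ p ∧ FNot (codeN ((a + b) / 2)) τ p

theorem El.mono {ξ η τ : Name PP} {k : ℕ} {a b : ℚ} {p q : PP} (h : El ξ η τ k a b p)
    (hq : q ≤ p) : El ξ η τ k a b q :=
  ⟨h.1.mono hq, h.2.1.mono hq, h.2.2.1.mono hq, h.2.2.2.mono hq⟩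

def Hit (ξ η σ τ : Name PP) (k m : ℕ) (p : PP) : Prop :=
  ∃ a b : ℚ, El ξ η τ k a b p ∧ b - a ≤ 1 / (m + 1) ∧ FMem (codeN a) σ p ∧ FNot (codeN b) σ p

def UU (ξ η σ : Name PP) (k m : ℕ) : Set PP := {p | ∀ q ≤ p, ∀ τ, ¬ Hit ξ η σ τ k m q}

def Cv (ξ η : Name PP) (α : II) (j : ℕ) (a b : ℚ) (p : PP) : Prop :=
  ∃ k m τ, El ξ η τ k a b p ∧ Gv α k m p ∧ b - a ≤ 1 / ((m + j : ℕ) + 1)

theorem Cv.mono {ξ η : Name PP} {α : II} {j : ℕ} {a b : ℚ} {p q : PP} (h : Cv ξ η α j a b p)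
    (hq : q ≤ p) : Cv ξ η α j a b q := by
  obtain ⟨k, m, τ, h1, h2, h3⟩ := h
  exact ⟨k, m, τ, h1.mono hq, h2.mono hq, h3⟩

noncomputable def covN (ξ η : Name PP) (α : II) (j : ℕ) : Name PP :=
  ⟨{x : (ℚ × ℚ) × PP // Cv ξ η α j x.1.1 x.1.2 x.2}, fun x => prQ x.1.1, fun x => x.1.2⟩

def InU (ξ η : Name PP) (α : II) (σ : Name PP) (j : ℕ) (r : PP) : Prop :=
  ∃ a b, Cv ξ η α j a b r ∧ FMem (codeN a) σ r ∧ FNot (codeN b) σ r

def New (ξ σ : Name PP) (t : ℕ → Name PP) (p : PP) : Prop :=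
  FMem σ ξ p ∧ ∀ n, ∀ q ≤ p, ¬ FEq σ (t n) q

def Good (ξ η : Name PP) (α : II) (T : Set (Name PP)) (j : ℕ) (t : ℕ → Name PP) (p : PP) : Prop :=
  ∀ q ≤ p, ∀ σ ∈ T, FMem σ ξ q → ∃ r ≤ q, InU ξ η α σ j r ∨ ∃ n, FEq σ (t n) r

def Dom (ξ η : Name PP) (α : II) (σ : Name PP) (q : PP) : Prop :=
  ∃ N, ∀ k, N ≤ k → ∀ r ≤ q, ∀ n, Gv α k n r →
    ∃ s ≤ r, (∃ m ≤ n, s ∈ UU ξ η σ k m) ∨ ∀ t ≤ s, ∀ m, t ∉ UU ξ η σ k m

/-- The ground model data attached to a pair of names. -/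
structure Data (ξ η : Name PP) where
  T : Set (Name PP)
  α : II
  col : Name PP → ℕ → Name PP
  ts : ℕ → Name PP
  new : ℕ → Name PP
  dom : ∀ σ ∈ T, ∀ p, ∃ q ≤ p, Dom ξ η α σ q
  col_spec : ∀ ζ n, ∀ σ ∈ T, ∀ p, FMem (pairN (natN n) σ) ζ p →
    ∃ r ≤ p, ∃ i, FMem (pairN (natN n) (col ζ i)) ζ r
  ts_col : ∀ i, ∃ n, ts n = col η i
  ts_good : ∀ j p ζ, Good ξ η α T j (col ζ) p → ∃ r ≤ p, Good ξ η α T j ts r
  new_mem : ∀ i, new i ∈ T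
  new_spec : ∀ σ p, New ξ σ ts p → ∃ r ≤ p, ∃ i, New ξ (new i) ts r

theorem exists_data (ξ η : Name PP) : Nonempty (Data ξ η) := by
  choose new _ hnew using fun t : ℕ → Name PP => ccc_wit (fun σ p => New ξ σ t p)
    (fun σ p q h hq => ⟨h.1.mono hq, fun n r hr => h.2 n r (hr.trans hq)⟩)
    (mem_univ (empty : Name PP))
  choose h hh using fun σ => dominate
    (fun S hS => bdd S (hS.le_aleph0.trans aleph0_le_continuum)) (UU ξ η σ)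
    fun k m p hp q hq r hr => hp r (hr.trans hq)
  obtain ⟨T, t0, t1, α, t2⟩ := exists_closed empty new h
  choose c c1 c2 using fun (ζ : Name PP) (n : ℕ) => ccc_wit
    (fun σ p => FMem (pairN (natN n) σ) ζ p) (fun σ p q h hq => h.mono hq) t0
  choose g g1 g2 using fun j : ℕ => ccc_wit (fun t p => Good ξ η α T j t p)
    (fun t p q h hq r hr => h r (hr.trans hq)) (T := {t | ∀ n, t n ∈ T}) (x0 := fun _ => empty)
    fun _ => t0
  let col : Name PP → ℕ → Name PP := fun ζ i => c ζ i.unpair.1 i.unpair.2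
  obtain ⟨e, he⟩ := exists_surjective_nat (ℕ ⊕ ℕ × ℕ × ℕ)
  let ts : ℕ → Name PP := fun n => (e n).elim (col η) fun x => g x.1 x.2.1 x.2.2
  have ts1 : ∀ n, ts n ∈ T := by
    intro n
    simp only [ts]
    cases e n with
    | inl i => exact c1 _ _ _
    | inr x => exact g1 _ _ _
  refine ⟨⟨T, α, col, ts, new ts, fun σ hσ p => hh σ α (t2 σ hσ).le p, fun ζ n σ hσ p hp => ?_,
    fun i => ?_, fun j p ζ hp => ?_, t1 ts ts1, fun σ p hp => hnew ts σ trivial p hp⟩⟩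
  · obtain ⟨r, r1, i, r2⟩ := c2 ζ n σ hσ p hp
    exact ⟨r, r1, Nat.pair n i, by simpa [col] using r2⟩
  · obtain ⟨n, hn⟩ := he (.inl i)
    exact ⟨n, by simp [ts, hn]⟩
  · obtain ⟨r, r1, i, r2⟩ := g2 j (col ζ) (fun n => c1 _ _ _) p hp
    refine ⟨r, r1, fun q hq σ hσ h => ?_⟩
    obtain ⟨s, s1, s2⟩ := r2 q hq σ hσ h
    refine ⟨s, s1, s2.imp id fun ⟨n, hn⟩ => ?_⟩
    obtain ⟨m, hm⟩ := he (.inr (j, i, n))
    exact ⟨m, by simpa [ts, hm] using hn⟩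

noncomputable def data (ξ η : Name PP) : Data ξ η := Classical.choice (exists_data ξ η)

noncomputable def idN (ξ : Name PP) : Name PP := ⟨ξ.Ty, fun i => pairN (ξ.ch i) (ξ.ch i), ξ.cd⟩

inductive PT : Type
  | idn | cov (j : ℕ) | hit (k m : ℕ) | gv (k : ℕ) | dom | col | colm (n : ℕ) | bad (j : ℕ)
  | good (j : ℕ) | ts | hitu (j : ℕ) | eq | neww
  deriving Countable

def Ψ (ξ η σ : Name PP) (d : Data ξ η) : PT → Name PP → PP → Prop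
  | .idn, x, _ => x = idN ξ
  | .cov j, x, _ => x = covN ξ η d.α j
  | .hit k m, x, p => Hit ξ η σ x k m p
  | .gv k, _, p => ∃ n, Gv d.α k n p
  | .dom, _, q => Dom ξ η d.α σ q
  | .col, x, _ => x = sqN (d.col σ)
  | .colm n, _, r => ∃ i, FMem (pairN (natN n) (d.col σ i)) σ r
  | .bad j, x, q => x ∈ d.T ∧ FMem x ξ q ∧
      ∀ r ≤ q, ¬ (InU ξ η d.α x j r ∨ ∃ n, FEq x (d.col σ n) r)
  | .good j, _, r => Good ξ η d.α d.T j d.ts r
  | .ts, x, _ => x = pairN (sqN d.ts) (sqN d.new)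
  | .hitu j, _, r => InU ξ η d.α σ j r ∨ ∃ n, FEq σ (d.ts n) r
  | .eq, _, r => ∃ n, FEq σ (d.ts n) r
  | .neww, _, r => ∃ i, New ξ (d.new i) d.ts r

def Φ (i : PT) (l : List (Name PP)) : Name PP → PP → Prop :=
  Ψ (l.getD 0 empty) (l.getD 1 empty) (l.getD 2 empty) (data _ _) i

variable (C : TC Φ)

theorem funIn_id {X : Set ℝ} (h : SetIn C.M X) : FunIn C.M X id := by
  obtain ⟨s, hs, hX⟩ := h
  obtain ⟨ξ, hξ, rfl⟩ := C.mem_M.1 hs
  have h : idN ξ ∈ C.N := fn C .idn (C.one hξ) fun _ _ => Iff.rfl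
  refine ⟨_, C.val_mem_M h, fun z => ?_⟩
  rw [C.mem_val]
  constructor
  · rintro ⟨i, a, b, rfl⟩
    obtain ⟨r, hr, e⟩ := (hX _).1 (C.mem_val.2 ⟨i, C.pairN_left a, b, rfl⟩)
    refine ⟨r, hr, ?_⟩
    change C.val (pairN (ξ.ch i) (ξ.ch i)) = _
    rw [C.val_pairN a, e]
    rfl
  · rintro ⟨r, hr, rfl⟩
    obtain ⟨i, a, b, e⟩ := C.mem_val.1 ((hX _).2 ⟨r, hr, rfl⟩)
    refine ⟨i, C.pair_memN a a, b, ?_⟩
    change _ = C.val (pairN (ξ.ch i) (ξ.ch i))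
    rw [C.val_pairN (C.pair_memN a a), ← e]
    rfl

theorem col_cover {ξ η ζ σ : Name PP} (hξ : ξ ∈ C.N) (hη : η ∈ C.N) (hζ : ζ ∈ C.N) (hσ : σ ∈ C.N)
    (hT : σ ∈ (data ξ η).T)
    (hf : ∀ n y y', ZFSet.pair n y ∈ C.val ζ → ZFSet.pair n y' ∈ C.val ζ → y = y') {n : ℕ}
    (h : ZFSet.pair (nat n) (C.val σ) ∈ C.val ζ) :
    ∃ i, (data ξ η).col ζ i ∈ C.N ∧ C.val σ = C.val ((data ξ η).col ζ i) := by
  have h1 : sqN ((data ξ η).col ζ) ∈ C.N := fn C .col (C.three hξ hη hζ) fun _ _ => Iff.rfl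
  have h2 := h
  rw [← C.val_natN, pair_mem_iff C (C.natN_mem n) hσ hζ] at h2
  obtain ⟨p, hp, h2⟩ := h2
  obtain ⟨r, hr, -, -, -, i, hi⟩ := dense C (.colm n) (C.three hξ hη hζ) hp fun q hq => by
    obtain ⟨r, r1, r2⟩ := (data ξ η).col_spec ζ n σ hT q (h2.mono hq)
    exact ⟨r, r1, empty, r2⟩
  have h3 := (pair_mem_iff C (C.natN_mem n) (sqN_child C h1 i) hζ).2 ⟨r, hr, hi⟩
  rw [C.val_natN] at h3
  exact ⟨i, sqN_child C h1 i, hf _ _ _ h h3⟩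

theorem one_div_le {m n : ℕ} (h : m ≤ n) : (1 : ℚ) / (n + 1) ≤ 1 / (m + 1) := by
  apply one_div_le_one_div_of_le (by positivity)
  have : (m : ℚ) ≤ n := by exact_mod_cast h
  linarith

theorem ctbl_of_conc {X D : Set ℝ} (hX : SetIn C.M X) (hDX : D ⊆ X) (hD : CtblIn C.M D)
    (hc : ConcIn C.M X D) : CtblIn C.M X := by
  obtain ⟨s, hs, hX⟩ := hX
  obtain ⟨ξ, hξ, rfl⟩ := C.mem_M.1 hs
  obtain ⟨g, hg, g1, g2⟩ := hD
  obtain ⟨η, hη, rfl⟩ := C.mem_M.1 hg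
  have hl := C.two hξ hη
  have nm : ∀ y ∈ X, ∃ σ ∈ C.N, C.val σ = cut y := fun y hy =>
    C.mem_M.1 (C.trans _ hs ((hX _).2 ⟨y, hy, rfl⟩))
  have hts : pairN (sqN (data ξ η).ts) (sqN (data ξ η).new) ∈ C.N :=
    fn C .ts hl fun _ _ => Iff.rfl
  have ts_mem := sqN_child C (C.pairN_left hts)
  let A : ℕ → Set (ℚ × ℚ) := fun j => {a | ∃ p ∈ C.G, Cv ξ η (data ξ η).α j a.1 a.2 p}
  have hA : ∀ j, CodeIn C.M (A j) := by
    intro j
    have h : covN ξ η (data ξ η).α j ∈ C.N := fn C (.cov j) hl fun _ _ => Iff.rfl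
    have e : ∀ a : ℚ × ℚ, C.val (prQ a) = ZFSet.pair (code a.1) (code a.2) := fun a => by
      rw [prQ, C.val_pairN (C.pair_memN (codeN_mem C _) (codeN_mem C _)), val_codeN, val_codeN]
    refine ⟨_, C.val_mem_M h, fun z => ?_⟩
    rw [C.mem_val]
    constructor
    · rintro ⟨⟨⟨a, p⟩, h1⟩, -, b, rfl⟩
      exact ⟨a, ⟨p, b, h1⟩, e a⟩
    · rintro ⟨a, ⟨p, hp, h1⟩, rfl⟩
      exact ⟨⟨(a, p), h1⟩, C.pair_memN (codeN_mem C _) (codeN_mem C _), hp, (e a).symm⟩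
  have hDA : ∀ j, D ⊆ opn (A j) := by
    intro j c hc
    obtain ⟨k, hk⟩ := g2 c hc
    obtain ⟨τ, hτ, e⟩ := nm c (hDX hc)
    rw [← e, ← C.val_natN, pair_mem_iff C (C.natN_mem k) hτ hη] at hk
    obtain ⟨p1, a1, b1⟩ := hk
    obtain ⟨p2, a2, b2⟩ := (mem_iff C hτ hξ).1 ((hX _).2 ⟨c, hDX hc, e⟩)
    obtain ⟨p3, a3, -, -, -, m, b3⟩ := dense C (.gv k) hl C.top fun q _ => by
      obtain ⟨r, r1, r2⟩ := gv_dense (data ξ η).α k q
      exact ⟨r, r1, empty, r2⟩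
    obtain ⟨δ, hδ⟩ : ∃ δ : ℚ, δ = 1 / ((m + j : ℕ) + 1) := ⟨_, rfl⟩
    have hδ' : (0 : ℝ) < δ := by rw [hδ]; positivity
    obtain ⟨a, h1, h2⟩ := exists_rat_btwn (show c - δ / 2 < c by linarith)
    obtain ⟨p4, a4, b4⟩ := (code_mem_iff C hτ e a).1 h2
    obtain ⟨p5, a5, b5⟩ := (code_not_mem_iff C hτ e ((a + (a + δ)) / 2)).1 (by
      push_cast; linarith)
    obtain ⟨q, hq, q1, q2, q3⟩ := C.dir3 a1 a2 a3
    obtain ⟨r, hr, r1, r2, r3⟩ := C.dir3 hq a4 a5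
    refine mem_biUnion (x := (a, a + δ)) ⟨r, hr, k, m, τ, ⟨b1.mono (r1.trans q1),
      b2.mono (r1.trans q2), b4.mono r2, b5.mono r3⟩, Gv.mono b3 (r1.trans q3), by
        simp [hδ]⟩ ⟨h2, by push_cast; linarith⟩
  have hgood : ∀ j, ∃ r ∈ C.G, Good ξ η (data ξ η).α (data ξ η).T j (data ξ η).ts r := by
    intro j
    obtain ⟨g', hg', z1, z2⟩ := hc _ (hA j) (hDA j)
    obtain ⟨ζ, hζ, rfl⟩ := C.mem_M.1 hg'
    rcases dich C (.bad j) (C.three hξ hη hζ) with ⟨q, hq, -, σ, hσ, h1, h2, h3⟩ | ⟨p, hp, h⟩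
    · exfalso
      obtain ⟨y, hy, e⟩ := (hX _).1 ((mem_iff C hσ hξ).2 ⟨q, hq, h2⟩)
      by_cases hyU : y ∈ opn (A j)
      · obtain ⟨a, ⟨p1, a1, b1⟩, h4, h5⟩ := mem_iUnion₂.1 hyU
        obtain ⟨p2, a2, b2⟩ := (code_mem_iff C hσ e a.1).1 h4
        obtain ⟨p3, a3, b3⟩ := (code_not_mem_iff C hσ e a.2).1 h5.le
        obtain ⟨r, hr, r1, r2, r3⟩ := C.dir3 a1 a2 a3
        obtain ⟨s, -, s1, s2⟩ := C.dir r hr q hq
        exact h3 s s2 (Or.inl ⟨a.1, a.2, b1.mono (s1.trans r1), b2.mono (s1.trans r2),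
          b3.mono (s1.trans r3)⟩)
      · obtain ⟨n, hn⟩ := z2 y ⟨hy, hyU⟩
        rw [← e] at hn
        obtain ⟨i, i1, i2⟩ := col_cover C hξ hη hζ hσ h1 z1 hn
        obtain ⟨r, hr, r1⟩ := (C.val_eq_iff hσ i1).1 i2
        obtain ⟨s, -, s1, s2⟩ := C.dir r hr q hq
        exact h3 s s2 (Or.inr ⟨i, r1.mono s1⟩)
    · obtain ⟨r, hr, -, _, -, h9⟩ := dense C (.good j) hl hp fun q hq => by
        obtain ⟨r, r1, r2⟩ := (data ξ η).ts_good j q ζ fun q' hq' σ hσ h1 => by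
          by_contra h2
          exact h q' (hq'.trans hq) σ ⟨hσ, h1, fun r hr h3 => h2 ⟨r, hr, h3⟩⟩
        exact ⟨r, r1, empty, r2⟩
      exact ⟨r, hr, h9⟩
  have hT : ∀ σ ∈ C.N, σ ∈ (data ξ η).T → C.val σ ∈ C.val ξ →
      ∃ n, C.val σ = C.val ((data ξ η).ts n) := by
    intro σ hσ h1 h2
    obtain ⟨y, hy, e⟩ := (hX _).1 h2
    by_cases h3 : ∃ k, ZFSet.pair (nat k) (C.val σ) ∈ C.val η
    · obtain ⟨k, hk⟩ := h3
      obtain ⟨i, -, i2⟩ := col_cover C hξ hη hη hσ h1 g1 hk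
      obtain ⟨n, hn⟩ := (data ξ η).ts_col i
      exact ⟨n, by rw [hn, i2]⟩
    have h4 : ∀ k, ∃ m, ∃ p ∈ C.G, p ∈ UU ξ η σ k m := by
      intro k
      by_contra hc
      have h5 : ∀ m : ℕ, ∃ c : ℝ, ZFSet.pair (nat k) (cut c) ∈ C.val η ∧
          |c - y| ≤ 1 / ((m : ℝ) + 1) := by
        intro m
        rcases dich C (.hit k m) (C.three hξ hη hσ) with
          ⟨q, hq, -, τ, hτ, a, b, ⟨b1, b2, b3, b4⟩, b5, b6, b7⟩ | ⟨p, hp, h⟩
        · obtain ⟨c, -, e'⟩ := (hX _).1 ((mem_iff C hτ hξ).2 ⟨q, hq, b2⟩)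
          have c1 := (pair_mem_iff C (C.natN_mem k) hτ hη).2 ⟨q, hq, b1⟩
          rw [C.val_natN, e'] at c1
          have c2 := (code_mem_iff C hτ e' a).2 ⟨q, hq, b3⟩
          have c3 := (code_not_mem_iff C hτ e' _).2 ⟨q, hq, b4⟩
          have c4 := (code_mem_iff C hσ e a).2 ⟨q, hq, b6⟩
          have c5 := (code_not_mem_iff C hσ e b).2 ⟨q, hq, b7⟩
          have c6 := (Rat.cast_le (K := ℝ)).2 b5
          push_cast at c3 c6
          exact ⟨c, c1, abs_le.2 ⟨by linarith, by linarith⟩⟩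
        · exact (hc ⟨m, p, hp, h⟩).elim
      obtain ⟨c, c1, -⟩ := h5 0
      have c2 : c ≠ y := fun h => h3 ⟨k, by rwa [e, ← h]⟩
      obtain ⟨m, hm⟩ := exists_nat_one_div_lt (abs_pos.2 (sub_ne_zero.2 c2))
      obtain ⟨c', c3, c4⟩ := h5 m
      rw [cut_inj (g1 _ _ _ c3 c1)] at c4
      exact hm.not_ge c4
    choose m pk h5 h6 using h4
    obtain ⟨q, hq, -, -, -, N, hN⟩ := dense C .dom (C.three hξ hη hσ) C.top fun q _ => by
      obtain ⟨r, r1, r2⟩ := (data ξ η).dom σ h1 q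
      exact ⟨r, r1, empty, r2⟩
    obtain ⟨r0, a1, a2⟩ := hgood ((Finset.range N).sup m)
    obtain ⟨p1, a3, a4⟩ := (mem_iff C hσ hξ).1 h2
    obtain ⟨p2, a5, a6, a7⟩ := C.dir r0 a1 p1 a3
    obtain ⟨r, hr, -, -, -, h7 | ⟨n, h7⟩⟩ := dense C (.hitu ((Finset.range N).sup m))
      (C.three hξ hη hσ) a5 fun q hq => by
        obtain ⟨r, r1, r2⟩ := a2 q (hq.trans a6) σ h1 (a4.mono (hq.trans a7))
        exact ⟨r, r1, empty, r2⟩
    · exfalso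
      obtain ⟨a, b, ⟨k, n, τ, b1, b2, b3⟩, b4, b5⟩ := h7
      obtain ⟨s, -, s1, s2, s3⟩ := C.dir3 hr hq (h5 k)
      rcases lt_or_ge k N with hk | hk
      · have : m k ≤ (Finset.range N).sup m := Finset.le_sup (Finset.mem_range.2 hk)
        exact h6 k s s3 τ ⟨a, b, b1.mono s1, b3.trans (one_div_le (by omega)), b4.mono s1,
          b5.mono s1⟩
      · obtain ⟨t, t1, ⟨m', t2, t3⟩ | t2⟩ := hN k hk s s2 n (b2.mono s1)
        · exact t3 t le_rfl τ ⟨a, b, b1.mono (t1.trans s1), b3.trans (one_div_le (by omega)),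
            b4.mono (t1.trans s1), b5.mono (t1.trans s1)⟩
        · exact t2 t le_rfl (m k) fun u hu => h6 k u (hu.trans (t1.trans s3))
    · exact ⟨n, (C.val_eq_iff hσ (ts_mem n)).2 ⟨r, hr, h7⟩⟩
  refine ctbl_of_sqN C (C.pairN_left hts) fun y hy => ?_
  obtain ⟨σ, hσ, e⟩ := nm y hy
  rcases dich C .eq (C.three hξ hη hσ) with ⟨q, hq, -, -, -, n, hn⟩ | ⟨p, hp, h⟩
  · exact ⟨n, by rw [← e]; exact ((C.val_eq_iff hσ (ts_mem n)).2 ⟨q, hq, hn⟩).symm⟩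
  · exfalso
    obtain ⟨p1, a1, a2⟩ := (mem_iff C hσ hξ).1 ((hX _).2 ⟨y, hy, e⟩)
    obtain ⟨p2, a3, a4, a5⟩ := C.dir p hp p1 a1
    obtain ⟨r, hr, -, -, -, i, h1, h2⟩ := dense C .neww hl a3 fun q hq => by
      obtain ⟨r, r1, r2⟩ := (data ξ η).new_spec σ q ⟨a2.mono (hq.trans a5),
        fun n s hs h' => h s (hs.trans (hq.trans a4)) empty ⟨n, h'⟩⟩
      exact ⟨r, r1, empty, r2⟩
    have h3 := sqN_child C (C.pairN_right hts) i
    obtain ⟨n, hn⟩ := hT _ h3 ((data ξ η).new_mem i) ((mem_iff C h3 hξ).2 ⟨r, hr, h1⟩)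
    obtain ⟨s, hs, s1⟩ := (C.val_eq_iff h3 (ts_mem n)).1 hn
    obtain ⟨t, -, t1, t2⟩ := C.dir r hr s hs
    exact h2 n t t1 (s1.mono t2)

end Pos

theorem exists_model_pos : ∃ M : ZFSet.{0}, ModelZF M ∧ AC M ∧ BrownCoxIn M := by
  obtain ⟨C⟩ := exists_ctx (tR Pos.Φ) (tD Pos.Φ)
  refine ⟨C.M, C.modelZF, C.choice, fun X hX h => ?_⟩
  obtain ⟨D, d1, -, d2, d3⟩ := h X subset_rfl hX
  have hc := Pos.ctbl_of_conc C hX d1 d2 d3
  exact ⟨X, hX, fun Y hY _ _ => hc.mono hY, id, Pos.funIn_id C hX, continuousOn_id, image_id X⟩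

end Pool.Agent.Lib.MP_da5f1d_gt
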